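import Pool.Agent.W5h88.HL.Form

set_option autoImplicit false

/-!
# Trees with all degrees at least three are in the class
-/

namespace Pool.Agent.W5h88.HL

open Finset

variable {V : Type*} (G : SimpleGraph V) [G.LocallyFinite]

omit [G.LocallyFinite] in
/-- in a tree the neighbour closer to `a` is unique -/
theorem back_unique (hT : G.IsTree) {a x y z : V} (hx : G.Adj x z) (hy : G.Adj y z)
    (h1 : G.dist a z = G.dist a x + 1) (h2 : G.dist a z = G.dist a y + 1) : x = y := by
  obtain ⟨p, hp⟩ := hT.connected.exists_walk_length_eq_dist a x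
  obtain ⟨q, hq⟩ := hT.connected.exists_walk_length_eq_dist a y
  have hp' : (p.concat hx).IsPath :=
    SimpleGraph.Walk.isPath_of_length_eq_dist _ (by rw [SimpleGraph.Walk.length_concat, hp, h1])
  have hq' : (q.concat hy).IsPath :=
    SimpleGraph.Walk.isPath_of_length_eq_dist _ (by rw [SimpleGraph.Walk.length_concat, hq, h2])
  have h3 : p.concat hx = q.concat hy := (hT.existsUnique_path a z).unique hp' hq'
  have h4 := congrArg SimpleGraph.Walk.penultimate h3
  simpa using h4

/-- the vertices of the sphere of radius `r` of `w` lying behind `w`, seen from `a` -/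
noncomputable def behind (hG : G.Connected) (a w : V) (r : ℕ) : Finset V :=
  open Classical in
  ((ball_finite G hG r w).toFinset).filter fun u => G.dist w u = r ∧ G.dist a u = G.dist a w + r

theorem mem_behind (hG : G.Connected) {a w u : V} {r : ℕ} :
    u ∈ behind G hG a w r ↔ G.dist w u = r ∧ G.dist a u = G.dist a w + r := by
  classical
  unfold behind
  rw [mem_filter, Set.Finite.mem_toFinset, Set.mem_ofPred_eq]
  constructor
  · exact fun h => h.2
  · exact fun h => ⟨h.1.le, h⟩

theorem card_behind (hT : G.IsTree) (hd : ∀ v, 3 ≤ G.degree v) (a w : V) (r : ℕ) :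
    2 ^ r ≤ (behind G hT.connected a w r).card := by
  classical
  induction r with
  | zero =>
    have h : w ∈ behind G hT.connected a w 0 := by
      rw [mem_behind]
      simp
    exact card_pos.2 ⟨w, h⟩
  | succ r ih =>
    -- the forward neighbours
    let fw : V → Finset V := fun u => (G.neighborFinset u).filter fun z => G.dist a z = G.dist a u + 1
    have hfw : ∀ u, 2 ≤ (fw u).card := by
      intro u
      have h1 : ((G.neighborFinset u).filter fun z => ¬ G.dist a z = G.dist a u + 1).card ≤ 1 := by
        rw [card_le_one]
        intro x hx y hy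
        rw [mem_filter, SimpleGraph.mem_neighborFinset] at hx hy
        have hx' := (hT.dist_eq_dist_add_one_of_adj a hx.1).resolve_right hx.2
        have hy' := (hT.dist_eq_dist_add_one_of_adj a hy.1).resolve_right hy.2
        exact back_unique G hT hx.1.symm hy.1.symm hx' hy'
      have h2 := card_filter_add_card_filter_not (s := G.neighborFinset u)
        (fun z => G.dist a z = G.dist a u + 1)
      have h3 := hd u
      rw [← SimpleGraph.card_neighborFinset_eq_degree] at h3
      show 2 ≤ ((G.neighborFinset u).filter fun z => G.dist a z = G.dist a u + 1).card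
      omega
    have hdisj : ∀ x ∈ behind G hT.connected a w r, ∀ y ∈ behind G hT.connected a w r, x ≠ y →
        Disjoint (fw x) (fw y) := by
      intro x _ y _ hxy
      rw [disjoint_left]
      intro z hz hz'
      rw [mem_filter, SimpleGraph.mem_neighborFinset] at hz hz'
      exact hxy (back_unique G hT hz.1 hz'.1 hz.2 hz'.2)
    have hsub : (behind G hT.connected a w r).biUnion fw ⊆ behind G hT.connected a w (r + 1) := by
      intro z hz
      rw [mem_biUnion] at hz
      obtain ⟨u, hu, hz⟩ := hz
      rw [mem_filter, SimpleGraph.mem_neighborFinset] at hz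
      rw [mem_behind] at hu ⊢
      have h1 : G.dist w z ≤ G.dist w u + G.dist u z := hT.connected.dist_triangle
      have h2 : G.dist a z ≤ G.dist a w + G.dist w z := hT.connected.dist_triangle
      have h3 : G.dist u z = 1 := SimpleGraph.dist_eq_one_iff_adj.2 hz.1
      omega
    have h1 := card_le_card hsub
    rw [card_biUnion hdisj] at h1
    have h2 : (behind G hT.connected a w r).card * 2 ≤
        ∑ u ∈ behind G hT.connected a w r, (fw u).card := by
      rw [← smul_eq_mul]
      exact card_nsmul_le_sum _ _ _ fun u _ => hfw u
    rw [pow_succ]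
    omega

theorem spread_tree (hT : G.IsTree) (hd : ∀ v, 3 ≤ G.degree v) : Spread G := by
  have key : ∀ w w' : V, w ≠ w' → ∀ r : ℕ,
      ((behind G hT.connected w' w r : Finset V) : Set V) ⊆ {u | G.dist w u = r ∧ r < G.dist w' u} := by
    intro w w' hw r u hu
    rw [mem_coe, mem_behind] at hu
    have h1 : 0 < G.dist w' w := hT.connected.pos_dist_of_ne hw.symm
    exact ⟨hu.1, by omega⟩
  refine ⟨fun w w' hw r => ?_, fun N => ⟨N, fun w w' hw r hr => ?_⟩⟩
  · have h1 := card_behind G hT hd w' w r
    have h2 : 0 < 2 ^ r := by positivity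
    obtain ⟨u, hu⟩ := card_pos.1 (h2.trans_le h1)
    exact ⟨u, key w w' hw r (mem_coe.2 hu)⟩
  · have h1 := card_behind G hT hd w' w r
    have h2 : {u | G.dist w u = r ∧ r < G.dist w' u}.Finite :=
      (ball_finite G hT.connected r w).subset fun u hu => hu.1.le
    have h3 := Set.ncard_le_ncard (key w w' hw r) h2
    rw [Set.ncard_coe_finset] at h3
    have h4 : r < 2 ^ r := Nat.lt_two_pow_self
    omega

end Pool.Agent.W5h88.HL
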