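import Mathlib

set_option autoImplicit false

/-!
# Coefficients of the harmonic functions on `G × ℤ` in terms of the layers `0` and `1`
-/

namespace Pool.Agent.W5h88.HL

open Finset

variable {V : Type*} (G : SimpleGraph V) [G.LocallyFinite]

/-- the neighbours on a geodesic -/
theorem exists_step (hG : G.Connected) {w u : V} {n : ℕ} (h : G.dist w u = n + 1) :
    ∃ z, G.Adj w z ∧ G.dist z u = n := by
  obtain ⟨p, hp⟩ := hG.exists_walk_length_eq_dist w u
  cases p with
  | nil => simp at h
  | @cons _ z _ hadj q =>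
    refine ⟨z, hadj, ?_⟩
    rw [SimpleGraph.Walk.length_cons, h] at hp
    have h1 : G.dist z u ≤ n := (SimpleGraph.dist_le q).trans (by omega)
    have h2 : G.dist w u ≤ G.dist w z + G.dist z u := hG.dist_triangle
    have h3 : G.dist w z = 1 := SimpleGraph.dist_eq_one_iff_adj.2 hadj
    omega

theorem dist_adj (hG : G.Connected) {w z u : V} (h : G.Adj w z) :
    G.dist w u ≤ G.dist z u + 1 := by
  have h2 : G.dist w u ≤ G.dist w z + G.dist z u := hG.dist_triangle
  have h3 : G.dist w z = 1 := SimpleGraph.dist_eq_one_iff_adj.2 h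
  omega

theorem ball_finite (hG : G.Connected) (n : ℕ) : ∀ w : V, {u | G.dist w u ≤ n}.Finite := by
  induction n with
  | zero =>
    intro w
    refine (Set.finite_singleton w).subset fun u hu => ?_
    have h : G.dist w u = 0 := Nat.le_zero.1 hu
    exact ((hG.dist_eq_zero_iff).1 h).symm
  | succ n ih =>
    intro w
    refine ((ih w).union ((G.neighborFinset w).finite_toSet.biUnion fun z _ => ih z)).subset
      fun u hu => ?_
    by_cases h : G.dist w u ≤ n
    · exact Or.inl h
    · right
      have h1 : G.dist w u = n + 1 := le_antisymm hu (by omega)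
      obtain ⟨z, hz, hd⟩ := exists_step G hG h1
      simp only [Set.mem_iUnion]
      exact ⟨z, by simpa using hz, hd.le⟩

/-- the coefficients of the layer `1` -/
noncomputable def cf : ℕ → V → V → ℤ
  | 0 => fun _ _ => 0
  | 1 => fun w u => by classical exact if u = w then 1 else 0
  | (n + 2) => fun w u => ((G.degree w : ℤ) + 2) * cf (n + 1) w u - cf n w u -
      ∑ z ∈ G.neighborFinset w, cf (n + 1) z u

theorem cf_zero (w u : V) : cf G 0 w u = 0 := rfl

theorem cf_one_self (w : V) : cf G 1 w w = 1 := by simp [cf]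

theorem cf_one_ne {w u : V} (h : u ≠ w) : cf G 1 w u = 0 := by simp [cf, h]

theorem cf_add_two (n : ℕ) (w u : V) : cf G (n + 2) w u =
    ((G.degree w : ℤ) + 2) * cf G (n + 1) w u - cf G n w u -
      ∑ z ∈ G.neighborFinset w, cf G (n + 1) z u := rfl

theorem cf_far (hG : G.Connected) : ∀ (n : ℕ) (w u : V), n ≤ G.dist w u → cf G n w u = 0
  | 0, _, _, _ => rfl
  | 1, w, u, h => by
    apply cf_one_ne
    rintro rfl
    simp at h
  | (n + 2), w, u, h => by
    rw [cf_add_two, cf_far hG (n + 1) w u (by omega), cf_far hG n w u (by omega),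
      sum_eq_zero fun z hz => cf_far hG (n + 1) z u (by
        have := dist_adj G hG (u := u) ((G.mem_neighborFinset w z).1 hz)
        omega)]
    simp

theorem cf_front (hG : G.Connected) : ∀ (n : ℕ) (w u : V), G.dist w u = n →
    0 < (-1) ^ n * cf G (n + 1) w u
  | 0, w, u, h => by
    have : w = u := (hG.dist_eq_zero_iff).1 h
    subst this
    rw [cf_one_self]
    norm_num
  | (n + 1), w, u, h => by
    rw [cf_add_two, cf_far G hG (n + 1) w u h.ge, cf_far G hG n w u (by omega)]
    obtain ⟨z0, hz0, hd0⟩ := exists_step G hG h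
    have h1 : ∀ z ∈ G.neighborFinset w, 0 ≤ (-1) ^ n * cf G (n + 1) z u := by
      intro z hz
      have h2 := dist_adj G hG (u := u) ((G.mem_neighborFinset w z).1 hz)
      rcases Nat.lt_or_ge n (G.dist z u) with h3 | h3
      · rw [cf_far G hG (n + 1) z u h3]
        simp
      · exact (cf_front hG n z u (by omega)).le
    have h2 : 0 < ∑ z ∈ G.neighborFinset w, (-1) ^ n * cf G (n + 1) z u :=
      sum_pos' h1 ⟨z0, (G.mem_neighborFinset w z0).2 hz0, cf_front hG n z0 u hd0⟩
    rw [← mul_sum] at h2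
    have e : (-1 : ℤ) ^ (n + 1) * (((G.degree w : ℤ) + 2) * 0 - 0 -
        ∑ z ∈ G.neighborFinset w, cf G (n + 1) z u) =
        (-1) ^ n * ∑ z ∈ G.neighborFinset w, cf G (n + 1) z u := by
      rw [pow_succ]
      ring
    rw [e]
    exact h2

/-- the odd extension to the integers -/
noncomputable def cc (i : ℤ) (w u : V) : ℤ := i.sign * cf G i.natAbs w u

theorem cc_nat (n : ℕ) (w u : V) : cc G n w u = cf G n w u := by
  unfold cc
  rcases Nat.eq_zero_or_pos n with h | h
  · subst h
    simp [cf_zero]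
  · rw [Int.sign_natCast_of_ne_zero (by omega)]
    simp

theorem cc_neg (i : ℤ) (w u : V) : cc G (-i) w u = - cc G i w u := by
  unfold cc
  rw [Int.sign_neg, Int.natAbs_neg]
  ring

theorem cc_rec (i : ℤ) (w u : V) : cc G (i + 1) w u + cc G (i - 1) w u =
    ((G.degree w : ℤ) + 2) * cc G i w u - ∑ z ∈ G.neighborFinset w, cc G i z u := by
  have key : ∀ n : ℕ, cc G (n + 1 : ℤ) w u + cc G (n - 1 : ℤ) w u =
      ((G.degree w : ℤ) + 2) * cc G n w u - ∑ z ∈ G.neighborFinset w, cc G n z u := by
    intro n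
    rcases n with _ | n
    · have e1 : (((0 : ℕ) : ℤ) + 1) = 1 := by norm_num
      have e2 : (((0 : ℕ) : ℤ) - 1) = -1 := by norm_num
      rw [e1, e2, cc_neg]
      have e3 : ∀ z, cc G ((0 : ℕ) : ℤ) z u = 0 := fun z => by rw [cc_nat, cf_zero]
      simp only [e3]
      simp
    · have e1 : (((n + 1 : ℕ) : ℤ) + 1) = ((n + 2 : ℕ) : ℤ) := by push_cast; ring
      have e2 : (((n + 1 : ℕ) : ℤ) - 1) = ((n : ℕ) : ℤ) := by push_cast; ring
      rw [e1, e2, cc_nat, cc_nat, cc_nat, cf_add_two]
      simp only [cc_nat]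
      ring
  rcases Int.eq_nat_or_neg i with ⟨n, rfl | rfl⟩
  · exact key n
  · have h := key n
    have e1 : (-(n : ℤ) + 1) = -((n : ℤ) - 1) := by ring
    have e2 : (-(n : ℤ) - 1) = -((n : ℤ) + 1) := by ring
    rw [e1, e2, cc_neg, cc_neg, cc_neg]
    simp only [cc_neg, sum_neg_distrib]
    linarith

theorem cc_far (hG : G.Connected) {i : ℤ} {w u : V} (h : i.natAbs ≤ G.dist w u) :
    cc G i w u = 0 := by
  unfold cc
  rw [cf_far G hG _ _ _ h, mul_zero]

theorem cc_front (hG : G.Connected) {i : ℤ} {w u : V} (h : G.dist w u + 1 = i.natAbs) :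
    cc G i w u ≠ 0 := by
  unfold cc
  have h1 := cf_front G hG (G.dist w u) w u rfl
  rw [h] at h1
  refine mul_ne_zero ?_ fun h2 => by rw [h2, mul_zero] at h1; exact lt_irrefl _ h1
  rw [Ne, Int.sign_eq_zero_iff_zero]
  rintro rfl
  simp at h

theorem cc_near (hG : G.Connected) {i : ℤ} {w u : V} (h : cc G i w u ≠ 0) :
    G.dist w u < i.natAbs := by
  by_contra hc
  exact h (cc_far G hG (by omega))

end Pool.Agent.W5h88.HL
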