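import Pool.Agent.W5h88.HL.Coef

set_option autoImplicit false

/-!
# The forms of the nodes of `G × ℤ` and the finiteness of the differences with a given support
-/

namespace Pool.Agent.W5h88.HL

open Finset

variable {V : Type*} (G : SimpleGraph V) [G.LocallyFinite]

/-- the finitely many variables which may occur in the form of a node -/
noncomputable def reach (hG : G.Connected) (w : V) (i : ℤ) : Finset (V × Bool) :=
  ((ball_finite G hG (i.natAbs + 1) w).toFinset) ×ˢ Finset.univ

/-- the coefficients of a node -/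
noncomputable def coef (w : V) (i : ℤ) (x : V × Bool) : ℤ :=
  if x.2 then cc G i w x.1 else - cc G (i - 1) w x.1

theorem coef_reach (hG : G.Connected) {w : V} {i : ℤ} {x : V × Bool} (h : coef G w i x ≠ 0) :
    x ∈ reach G hG w i := by
  obtain ⟨u, b⟩ := x
  unfold reach
  simp only [mem_product, Set.Finite.mem_toFinset, Set.mem_ofPred_eq, mem_univ, and_true]
  unfold coef at h
  cases b
  · simp only [Bool.false_eq_true, if_false, ne_eq, neg_eq_zero] at h
    have := cc_near G hG h
    omega
  · simp only [if_true] at h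
    have := cc_near G hG h
    omega

/-- the form of a node -/
noncomputable def K (hG : G.Connected) (w : V) (i : ℤ) : V × Bool →₀ ℤ :=
  Finsupp.onFinset (reach G hG w i) (coef G w i) fun _ h => coef_reach G hG h

theorem K_apply (hG : G.Connected) (w : V) (i : ℤ) (x : V × Bool) :
    K G hG w i x = coef G w i x := rfl

theorem K_true (hG : G.Connected) (w : V) (i : ℤ) (u : V) :
    K G hG w i (u, true) = cc G i w u := by simp [K_apply, coef]

theorem K_false (hG : G.Connected) (w : V) (i : ℤ) (u : V) :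
    K G hG w i (u, false) = - cc G (i - 1) w u := by simp [K_apply, coef]

theorem K_rec (hG : G.Connected) (w : V) (i : ℤ) :
    K G hG w (i + 1) + K G hG w (i - 1) =
      ((G.degree w : ℤ) + 2) • K G hG w i - ∑ z ∈ G.neighborFinset w, K G hG z i := by
  ext ⟨u, b⟩
  rw [Finsupp.add_apply, Finsupp.sub_apply, Finsupp.smul_apply, Finsupp.finsetSum_apply]
  cases b
  · simp only [K_false, smul_eq_mul]
    have h := cc_rec G (i - 1) w u
    have e1 : i + 1 - 1 = i - 1 + 1 := by ring
    rw [e1, sum_neg_distrib]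
    linarith
  · simp only [K_true, smul_eq_mul]
    exact cc_rec G i w u

/-- evaluation -/
noncomputable def ev (p : V × Bool → ℤ) (L : V × Bool →₀ ℤ) : ℤ := L.sum fun x a => a * p x

omit [G.LocallyFinite] in
theorem ev_add (p : V × Bool → ℤ) (L L' : V × Bool →₀ ℤ) : ev p (L + L') = ev p L + ev p L' := by
  classical
  unfold ev
  exact Finsupp.sum_add_index' (fun _ => by simp) fun _ _ _ => by ring

theorem ev_smul (p : V × Bool → ℤ) (c : ℤ) (L : V × Bool →₀ ℤ) : ev p (c • L) = c * ev p L := by
  unfold ev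
  rw [Finsupp.sum_smul_index' (fun _ => by simp), Finsupp.sum, Finsupp.sum, mul_sum]
  refine sum_congr rfl fun x _ => ?_
  simp only [smul_eq_mul]
  ring

theorem ev_zero (p : V × Bool → ℤ) : ev p 0 = 0 := by simp [ev]

theorem ev_neg (p : V × Bool → ℤ) (L : V × Bool →₀ ℤ) : ev p (-L) = - ev p L := by
  have h := ev_smul p (-1) L
  rw [neg_one_smul] at h
  rw [h]
  ring

theorem ev_sub (p : V × Bool → ℤ) (L L' : V × Bool →₀ ℤ) : ev p (L - L') = ev p L - ev p L' := by
  rw [sub_eq_add_neg, ev_add, ev_neg]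
  ring

theorem ev_sum {ι : Type*} (p : V × Bool → ℤ) (s : Finset ι) (f : ι → V × Bool →₀ ℤ) :
    ev p (∑ z ∈ s, f z) = ∑ z ∈ s, ev p (f z) := by
  classical
  induction s using Finset.induction_on with
  | empty => simp [ev_zero]
  | insert a s ha ih => rw [sum_insert ha, sum_insert ha, ev_add, ih]

theorem ev_single (p : V × Bool → ℤ) (x : V × Bool) (a : ℤ) :
    ev p (Finsupp.single x a) = a * p x := by
  unfold ev
  rw [Finsupp.sum_single_index (by simp)]

theorem ev_congr {p q : V × Bool → ℤ} {L : V × Bool →₀ ℤ} (h : ∀ x ∈ L.support, p x = q x) :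
    ev p L = ev q L := by
  unfold ev Finsupp.sum
  exact sum_congr rfl fun x hx => by simp only [h x hx]

theorem ev_harm (hG : G.Connected) (p : V × Bool → ℤ) (w : V) (i : ℤ) :
    ((G.degree w : ℤ) + 2) * ev p (K G hG w i) =
      ev p (K G hG w (i - 1)) + ev p (K G hG w (i + 1)) +
        ∑ z ∈ G.neighborFinset w, ev p (K G hG z i) := by
  have h := congrArg (ev p) (K_rec G hG w i)
  rw [ev_add, ev_sub, ev_smul, ev_sum] at h
  linarith

/-- The class of graphs: no ball of radius `r` contains another sphere of radius `r`, and the number of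
the vertices of the sphere outside the ball tends to infinity with `r`, uniformly. -/
def Spread : Prop :=
  (∀ w w' : V, w ≠ w' → ∀ r : ℕ, ∃ u, G.dist w u = r ∧ r < G.dist w' u) ∧
  ∀ N : ℕ, ∃ R : ℕ, ∀ w w' : V, w ≠ w' → ∀ r : ℕ, R ≤ r →
    N ≤ {u | G.dist w u = r ∧ r < G.dist w' u}.ncard

/-- vertices `u` on the sphere of `w` outside the ball of `w'` are in the support of the difference -/
theorem sphere_ne (hG : G.Connected) {w w' u : V} {i i' : ℤ} {r : ℕ} (hi : i.natAbs = r + 1)
    (hle : i'.natAbs ≤ i.natAbs) (h1 : G.dist w u = r) (h2 : r < G.dist w' u) :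
    (K G hG w i - K G hG w' i') (u, true) ≠ 0 := by
  rw [Finsupp.sub_apply, K_true, K_true, cc_far G hG (i := i') (w := w') (u := u) (by omega),
    sub_zero]
  exact cc_front G hG (by omega)

/-- the same for the second node -/
theorem sphere_ne' (hG : G.Connected) {w w' u : V} {i i' : ℤ} {r : ℕ} (hi : i'.natAbs = r + 1)
    (hle : i.natAbs ≤ i'.natAbs) (h1 : G.dist w' u = r) (h2 : r < G.dist w u) :
    (K G hG w i - K G hG w' i') (u, true) ≠ 0 := by
  have h := sphere_ne G hG (w := w') (w' := w) hi hle h1 h2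
  rw [Finsupp.sub_apply] at h ⊢
  intro h0
  apply h
  linarith

/-- the same vertex: the whole sphere is in the support of the difference -/
theorem sphere_same (hG : G.Connected) {w u : V} {i i' : ℤ} {r : ℕ} (hne : i ≠ i')
    (hi : i.natAbs = r + 1) (hle : i'.natAbs ≤ i.natAbs) (h1 : G.dist w u = r) :
    (K G hG w i - K G hG w i') (u, true) ≠ 0 := by
  rw [Finsupp.sub_apply, K_true, K_true]
  rcases Nat.lt_or_ge i'.natAbs i.natAbs with h | h
  · rw [cc_far G hG (i := i') (w := w) (u := u) (by omega), sub_zero]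
    exact cc_front G hG (by omega)
  · have h2 : i' = -i := by omega
    rw [h2, cc_neg]
    have h3 := cc_front G hG (i := i) (w := w) (u := u) (by omega)
    intro h4
    apply h3
    linarith

/-- bound for the heights -/
theorem height_bound (hG : G.Connected) (hS : Spread G) [Nontrivial V] (n : ℕ) :
    ∃ R : ℕ, ∀ F : Finset (V × Bool), F.card ≤ n → ∀ (w w' : V) (i i' : ℤ), (w, i) ≠ (w', i') →
      (K G hG w i - K G hG w' i').support ⊆ F → i.natAbs ≤ R ∧ i'.natAbs ≤ R := by
  classical
  obtain ⟨R, hR⟩ := hS.2 (n + 1)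
  -- a set of vertices whose true copies are in `F` is small
  have small : ∀ (F : Finset (V × Bool)) (E : Set V), F.card ≤ n → (∀ u ∈ E, (u, true) ∈ F) →
      E.ncard ≤ n := by
    intro F E hF hE
    have h1 : E ⊆ ((F.image Prod.fst : Finset V) : Set V) := by
      intro u hu
      rw [coe_image]
      exact ⟨(u, true), hE u hu, rfl⟩
    have h2 := Set.ncard_le_ncard h1 (Finset.finite_toSet _)
    rw [Set.ncard_coe_finset] at h2
    exact h2.trans (card_image_le.trans hF)
  have key : ∀ F : Finset (V × Bool), F.card ≤ n → ∀ (w w' : V) (i i' : ℤ), (w, i) ≠ (w', i') →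
      i'.natAbs ≤ i.natAbs → (∀ u, (K G hG w i - K G hG w' i') (u, true) ≠ 0 → (u, true) ∈ F) →
      i.natAbs ≤ R := by
    intro F hF w w' i i' hne hle hsup
    by_contra hc
    obtain ⟨r, hr⟩ : ∃ r, i.natAbs = r + 1 := ⟨i.natAbs - 1, by omega⟩
    by_cases hw : w = w'
    · subst hw
      have hii : i ≠ i' := fun h => hne (by rw [h])
      obtain ⟨w'', hw''⟩ := exists_ne w
      have h1 := hR w w'' hw''.symm r (by omega)
      have h2 := small F {u | G.dist w u = r ∧ r < G.dist w'' u} hF fun u hu =>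
        hsup u (sphere_same G hG hii hr hle hu.1)
      omega
    · have h1 := hR w w' hw r (by omega)
      have h2 := small F {u | G.dist w u = r ∧ r < G.dist w' u} hF fun u hu =>
        hsup u (sphere_ne G hG hr hle hu.1 hu.2)
      omega
  refine ⟨R, fun F hF w w' i i' hne hsup => ?_⟩
  rcases le_total i'.natAbs i.natAbs with h | h
  · have h1 := key F hF w w' i i' hne h fun u hu => hsup (Finsupp.mem_support_iff.2 hu)
    exact ⟨h1, h.trans h1⟩
  · have h1 := key F hF w' w i' i hne.symm h fun u hu => hsup (Finsupp.mem_support_iff.2 (by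
      intro h0
      apply hu
      rw [Finsupp.sub_apply] at h0 ⊢
      linarith))
    exact ⟨h.trans h1, h1⟩

/-- distance to the vertices of `F` -/
def Near (F : Finset (V × Bool)) (M : ℕ) (w : V) : Prop := ∃ x ∈ F, G.dist w x.1 ≤ M

theorem near_finite (hG : G.Connected) (F : Finset (V × Bool)) (M : ℕ) :
    {w | Near G F M w}.Finite := by
  have h : {w | Near G F M w} ⊆ ⋃ x ∈ F, {u | G.dist x.1 u ≤ M} := by
    rintro w ⟨x, hx, hd⟩
    simp only [Set.mem_iUnion]
    exact ⟨x, hx, by rw [Set.mem_ofPred_eq, SimpleGraph.dist_comm]; exact hd⟩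
  exact ((F.finite_toSet).biUnion fun x _ => ball_finite G hG M x.1).subset h

theorem cc_one_self (hG : G.Connected) (w : V) : cc G (-1) w w = -1 := by
  have h : cc G (-1) w w = - cc G ((1 : ℕ) : ℤ) w w := by
    rw [← cc_neg]
    norm_num
  rw [h, cc_nat, cf_one_self]

theorem loc_aux (hG : G.Connected) (hS : Spread G) {R : ℕ} {F : Finset (V × Bool)}
    {w w' : V} {i i' : ℤ} (hw : w ≠ w') (hmem : ∀ x, (K G hG w i - K G hG w' i') x ≠ 0 → x ∈ F)
    (hle : i'.natAbs ≤ i.natAbs) (hi : i.natAbs ≤ R) :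
    Near G F (4 * R + 4) w ∧ Near G F (4 * R + 4) w' := by
  have hdp : 0 < G.dist w w' := hG.pos_dist_of_ne hw
  have hdp' : 0 < G.dist w' w := hG.pos_dist_of_ne hw.symm
  by_cases h0 : i = 0
  · have h0' : i' = 0 := by
      rw [h0] at hle
      simpa using hle
    subst h0 h0'
    have e0 : (0 : ℤ) - 1 = -1 := by norm_num
    have h1 : (w, false) ∈ F := hmem _ (by
      rw [Finsupp.sub_apply, K_false, K_false, e0, cc_one_self G hG,
        cc_far G hG (w := w') (u := w) (i := -1) (by simp; omega)]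
      norm_num)
    have h2 : (w', false) ∈ F := hmem _ (by
      rw [Finsupp.sub_apply, K_false, K_false, e0, cc_one_self G hG,
        cc_far G hG (w := w) (u := w') (i := -1) (by simp; omega)]
      norm_num)
    exact ⟨⟨_, h1, by simp⟩, ⟨_, h2, by simp⟩⟩
  · obtain ⟨r, hr⟩ : ∃ r, i.natAbs = r + 1 := ⟨i.natAbs - 1, by omega⟩
    obtain ⟨u, hu1, hu2⟩ := hS.1 w w' hw r
    have hu := hmem _ (sphere_ne G hG hr hle hu1 hu2)
    refine ⟨⟨_, hu, by simp only; omega⟩, ?_⟩
    by_cases hd : G.dist w w' ≤ 2 * R + 2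
    · refine ⟨_, hu, ?_⟩
      have h1 : G.dist w' u ≤ G.dist w' w + G.dist w u := hG.dist_triangle
      rw [SimpleGraph.dist_comm (u := w') (v := w)] at h1
      simp only
      omega
    · by_cases h0' : i' = 0
      · subst h0'
        have e0 : (0 : ℤ) - 1 = -1 := by norm_num
        have h2 : (w', false) ∈ F := hmem _ (by
          rw [Finsupp.sub_apply, K_false, K_false, e0, cc_one_self G hG,
            cc_far G hG (w := w) (u := w') (i := i - 1) (by omega)]
          norm_num)
        exact ⟨_, h2, by simp⟩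
      · obtain ⟨r', hr'⟩ : ∃ r, i'.natAbs = r + 1 := ⟨i'.natAbs - 1, by omega⟩
        obtain ⟨u', hu1', -⟩ := hS.1 w' w hw.symm r'
        have h1 : G.dist w w' ≤ G.dist w u' + G.dist u' w' := hG.dist_triangle
        rw [SimpleGraph.dist_comm (u := u') (v := w')] at h1
        have h2 : (u', true) ∈ F := hmem _ (by
          rw [Finsupp.sub_apply, K_true, K_true, cc_far G hG (w := w) (u := u') (i := i) (by omega),
            zero_sub, neg_ne_zero]
          exact cc_front G hG (by omega))
        exact ⟨_, h2, by simp only; omega⟩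

/-- localisation of the nodes -/
theorem location (hG : G.Connected) (hS : Spread G) [Nontrivial V] {R : ℕ} {F : Finset (V × Bool)}
    {w w' : V} {i i' : ℤ} (hne : (w, i) ≠ (w', i'))
    (hsup : (K G hG w i - K G hG w' i').support ⊆ F) (hi : i.natAbs ≤ R) (hi' : i'.natAbs ≤ R) :
    Near G F (4 * R + 4) w ∧ Near G F (4 * R + 4) w' := by
  have hmem : ∀ x, (K G hG w i - K G hG w' i') x ≠ 0 → x ∈ F := fun x hx =>
    hsup (Finsupp.mem_support_iff.2 hx)
  have hmem' : ∀ x, (K G hG w' i' - K G hG w i) x ≠ 0 → x ∈ F := fun x hx => hmem x (by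
    intro h
    apply hx
    rw [Finsupp.sub_apply] at h ⊢
    linarith)
  by_cases hw : w = w'
  · subst hw
    have hii : i ≠ i' := fun h => hne (by rw [h])
    have h0 : ∀ r : ℕ, ∃ u, G.dist w u = r := by
      intro r
      obtain ⟨w'', hw''⟩ := exists_ne w
      obtain ⟨u, hu, -⟩ := hS.1 w w'' hw''.symm r
      exact ⟨u, hu⟩
    rcases le_total i'.natAbs i.natAbs with h | h
    · obtain ⟨r, hr⟩ : ∃ r, i.natAbs = r + 1 := ⟨i.natAbs - 1, by omega⟩
      obtain ⟨u, hu⟩ := h0 r
      have h1 := hmem _ (sphere_same G hG hii hr h hu)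
      have h2 : Near G F (4 * R + 4) w := ⟨_, h1, by simp only; omega⟩
      exact ⟨h2, h2⟩
    · obtain ⟨r, hr⟩ : ∃ r, i'.natAbs = r + 1 := ⟨i'.natAbs - 1, by omega⟩
      obtain ⟨u, hu⟩ := h0 r
      have h1 := hmem' _ (sphere_same G hG hii.symm hr h hu)
      have h2 : Near G F (4 * R + 4) w := ⟨_, h1, by simp only; omega⟩
      exact ⟨h2, h2⟩
  · rcases le_total i'.natAbs i.natAbs with h | h
    · exact loc_aux G hG hS hw hmem h hi
    · exact (loc_aux G hG hS (fun h => hw h.symm) hmem' h hi').symm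

/-- The differences of different nodes with support in a given finite set form a finite set. -/
theorem finite_pairs (hG : G.Connected) (hS : Spread G) [Nontrivial V] (F : Finset (V × Bool)) :
    {q : (V × ℤ) × (V × ℤ) | q.1 ≠ q.2 ∧
      (K G hG q.1.1 q.1.2 - K G hG q.2.1 q.2.2).support ⊆ F}.Finite := by
  obtain ⟨R, hR⟩ := height_bound G hG hS F.card
  have hfin : ({w | Near G F (4 * R + 4) w} ×ˢ Set.Icc (-(R : ℤ)) R).Finite :=
    (near_finite G hG F _).prod (Set.finite_Icc _ _)
  refine (hfin.prod hfin).subset ?_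
  rintro ⟨⟨w, i⟩, ⟨w', i'⟩⟩ ⟨hne, hsup⟩
  obtain ⟨h1, h2⟩ := hR F le_rfl w w' i i' hne hsup
  obtain ⟨h3, h4⟩ := location G hG hS hne hsup h1 h2
  refine ⟨⟨h3, ?_⟩, ⟨h4, ?_⟩⟩
  · rw [Set.mem_Icc]; simp only; omega
  · rw [Set.mem_Icc]; simp only; omega

end Pool.Agent.W5h88.HL
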