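import Pool.Agent.W5h88.HL.Greedy

set_option autoImplicit false

/-!
# The greedy construction for all infinite connected graphs in which the differences of the forms of
different nodes have large supports
-/

namespace Pool.Agent.W5h88.HL

open Finset

variable {V : Type*} (G : SimpleGraph V) [G.LocallyFinite]

/-- harmonic functions on `G × ℤ` -/
def Harm (φ : V → ℤ → ℤ) : Prop := ∀ (w : V) (i : ℤ),
  ((G.degree w : ℤ) + 2) * φ w i = φ w (i - 1) + φ w (i + 1) + ∑ z ∈ G.neighborFinset w, φ z i

/-- the data in the layers `0`, `1` -/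
def data (φ : V → ℤ → ℤ) (x : V × Bool) : ℤ := if x.2 then φ x.1 1 else φ x.1 0

theorem harm_ext {φ ψ : V → ℤ → ℤ} (hφ : Harm G φ) (hψ : Harm G ψ) (h0 : ∀ v, φ v 0 = ψ v 0)
    (h1 : ∀ v, φ v 1 = ψ v 1) : ∀ (i : ℤ) (v : V), φ v i = ψ v i := by
  have up : ∀ n : ℕ, (∀ v, φ v n = ψ v n) ∧ ∀ v, φ v (n + 1) = ψ v (n + 1) := by
    intro n
    induction n with
    | zero => exact ⟨fun v => by simpa using h0 v, fun v => by simpa using h1 v⟩
    | succ n ih =>
      refine ⟨fun v => by push_cast; exact ih.2 v, fun v => ?_⟩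
      have a1 := hφ v (n + 1)
      have a2 := hψ v (n + 1)
      have e1 : ((n : ℤ) + 1 - 1) = n := by ring
      rw [e1] at a1 a2
      have a3 : ∑ z ∈ G.neighborFinset v, φ z (n + 1) = ∑ z ∈ G.neighborFinset v, ψ z (n + 1) :=
        sum_congr rfl fun z _ => ih.2 z
      rw [ih.1 v, ih.2 v, a3] at a1
      push_cast
      linarith
  have down : ∀ n : ℕ, (∀ v, φ v (-(n : ℤ)) = ψ v (-(n : ℤ))) ∧
      ∀ v, φ v (-(n : ℤ) + 1) = ψ v (-(n : ℤ) + 1) := by
    intro n
    induction n with
    | zero => exact ⟨fun v => by simpa using h0 v, fun v => by simpa using h1 v⟩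
    | succ n ih =>
      have e0 : (-((n + 1 : ℕ) : ℤ)) = -(n : ℤ) - 1 := by push_cast; ring
      have e2 : (-((n + 1 : ℕ) : ℤ)) + 1 = -(n : ℤ) := by push_cast; ring
      refine ⟨fun v => ?_, fun v => by rw [e2]; exact ih.1 v⟩
      have a1 := hφ v (-(n : ℤ))
      have a2 := hψ v (-(n : ℤ))
      have a3 : ∑ z ∈ G.neighborFinset v, φ z (-(n : ℤ)) = ∑ z ∈ G.neighborFinset v, ψ z (-(n : ℤ)) :=
        sum_congr rfl fun z _ => ih.1 z
      rw [ih.1 v, ih.2 v, a3] at a1
      rw [e0]
      linarith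
  intro i v
  rcases Int.eq_nat_or_neg i with ⟨n, rfl | rfl⟩
  · exact (up n).1 v
  · exact (down n).1 v

theorem K_one_true (hG : G.Connected) (v : V) : K G hG v 1 = Finsupp.single (v, true) 1 := by
  classical
  ext ⟨u, b⟩
  have e0 : (1 : ℤ) - 1 = 0 := by norm_num
  have e1 : cc G 1 v u = cf G 1 v u := by
    have := cc_nat G 1 v u
    simpa using this
  cases b
  · rw [K_false, e0, cc_far G hG (i := 0) (w := v) (u := u) (by simp), Finsupp.single_apply,
      if_neg (by simp)]
    simp
  · rw [K_true, e1]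
    by_cases h : u = v
    · subst h
      rw [cf_one_self]
      simp
    · rw [cf_one_ne G h, Finsupp.single_apply, if_neg (by
        intro h'
        exact h (congrArg Prod.fst h').symm)]

theorem harm_K (hG : G.Connected) (p : V × Bool → ℤ) : Harm G fun v i => ev p (K G hG v i) :=
  fun w i => ev_harm G hG p w i

/-- every harmonic function is given by its data in the layers `0`, `1` -/
theorem harm_eq (hG : G.Connected) {φ : V → ℤ → ℤ} (hφ : Harm G φ) (i : ℤ) (v : V) :
    φ v i = ev (data φ) (K G hG v i) := by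
  refine harm_ext G hφ (harm_K G hG (data φ)) (fun v => ?_) (fun v => ?_) i v
  · rw [K_zero_false, ev_single]
    simp [data]
  · rw [K_one_true, ev_single]
    simp [data]

theorem ev_one (hG : G.Connected) (v : V) (i : ℤ) : ev (fun _ => 1) (K G hG v i) = 1 := by
  have h : Harm G fun _ _ => 1 := by
    intro w i
    simp only [sum_const, SimpleGraph.card_neighborFinset_eq_degree, nsmul_eq_mul]
    ring
  have h1 := harm_eq G hG h i v
  have h2 : data (fun (_ : V) (_ : ℤ) => (1 : ℤ)) = fun _ => 1 := by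
    funext x
    simp [data]
  rw [h2] at h1
  exact h1.symm

theorem K_ne_zero (hG : G.Connected) (v : V) (i : ℤ) : ∃ x, K G hG v i x ≠ 0 := by
  by_contra hc
  push Not at hc
  have h1 : K G hG v i = 0 := Finsupp.ext hc
  have h2 := ev_one G hG v i
  rw [h1, ev_zero] at h2
  norm_num at h2

/-- the growth of the supports -/
def Grows (hG : G.Connected) : Prop := ∀ n : ℕ, ∃ R : ℕ, ∀ F : Finset (V × Bool), F.card ≤ n →
  ∀ (w w' : V) (i i' : ℤ), (w, i) ≠ (w', i') → (K G hG w i - K G hG w' i').support ⊆ F →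
    i.natAbs ≤ R ∧ i'.natAbs ≤ R

omit [G.LocallyFinite] in
theorem ev_delta [DecidableEq V] (x : V × Bool) (L : V × Bool →₀ ℤ) :
    ev (fun y => if y = x then 1 else 0) L = L x := by
  unfold ev Finsupp.sum
  by_cases hx : x ∈ L.support
  · rw [sum_eq_single x (fun y _ hy => by simp [hy]) (fun h => absurd hx h)]
    simp
  · rw [sum_eq_zero fun y hy => by
      have : y ≠ x := by rintro rfl; exact hx hy
      simp [this]]
    exact (Finsupp.notMem_support_iff.1 hx).symm

/-- Different nodes have different forms. -/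
theorem K_inj (hG : G.Connected) (hgr : Grows G hG) {w w' : V} {i i' : ℤ}
    (h : K G hG w i = K G hG w' i') : (w, i) = (w', i') := by
  classical
  by_contra hne
  have htr : ∀ k : ℤ, K G hG w (i + k) = K G hG w' (i' + k) := by
    intro k
    ext x
    set p : V × Bool → ℤ := fun y => if y = x then 1 else 0 with hp
    have hh : Harm G fun v j => ev p (K G hG v (j + k)) := by
      intro v j
      have h1 := ev_harm G hG p v (j + k)
      have e1 : j - 1 + k = j + k - 1 := by ring
      have e2 : j + 1 + k = j + k + 1 := by ring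
      simp only [e1, e2]
      exact h1
    have h1 : ev p (K G hG w (i + k)) = _ := harm_eq G hG hh i w
    have h2 : ev p (K G hG w' (i' + k)) = _ := harm_eq G hG hh i' w'
    rw [h, ← h2, hp, ev_delta, ev_delta] at h1
    exact h1
  obtain ⟨R, hR⟩ := hgr 0
  have h3 := hR ∅ (by simp) w w' (i + (R + 1 - i)) (i' + (R + 1 - i)) (by
    intro h4
    apply hne
    have h5 : w = w' := congrArg Prod.fst h4
    have h6 : i + ((R : ℤ) + 1 - i) = i' + (R + 1 - i) := congrArg Prod.snd h4
    have h7 : i = i' := by linarith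
    rw [h5, h7]) (by rw [htr]; simp)
  have h4 := h3.1
  have e : i + ((R : ℤ) + 1 - i) = ((R + 1 : ℕ) : ℤ) := by push_cast; ring
  rw [e, Int.natAbs_natCast] at h4
  omega

/-- the supports are near the node -/
theorem K_near (hG : G.Connected) {w : V} {i : ℤ} {x : V × Bool} (h : K G hG w i x ≠ 0) :
    G.dist w x.1 ≤ i.natAbs := by
  obtain ⟨u, b⟩ := x
  cases b
  · rw [K_false, neg_ne_zero] at h
    have := cc_near G hG h
    simp only
    omega
  · rw [K_true] at h
    have := cc_near G hG h
    simp only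
    omega

theorem loc_gen (hG : G.Connected) (hgr : Grows G hG) {R : ℕ} {F : Finset (V × Bool)}
    {w w' : V} {i i' : ℤ} (hne : (w, i) ≠ (w', i'))
    (hmem : ∀ x, (K G hG w i - K G hG w' i') x ≠ 0 → x ∈ F) (hi : i.natAbs ≤ R)
    (hi' : i'.natAbs ≤ R) : Near G F (3 * R) w ∧ Near G F (3 * R) w' := by
  by_cases hd : G.dist w w' ≤ 2 * R
  · obtain ⟨x, hx⟩ : ∃ x, (K G hG w i - K G hG w' i') x ≠ 0 := by
      by_contra hc
      push Not at hc
      exact hne (K_inj G hG hgr (sub_eq_zero.1 (Finsupp.ext hc)))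
    have h1 : G.dist w x.1 ≤ R ∨ G.dist w' x.1 ≤ R := by
      by_contra hc
      push Not at hc
      apply hx
      rw [Finsupp.sub_apply]
      have a1 : K G hG w i x = 0 := by
        by_contra h
        have := K_near G hG h
        omega
      have a2 : K G hG w' i' x = 0 := by
        by_contra h
        have := K_near G hG h
        omega
      rw [a1, a2, sub_zero]
    have h2 : G.dist w x.1 ≤ G.dist w w' + G.dist w' x.1 := hG.dist_triangle
    have h3 : G.dist w' x.1 ≤ G.dist w' w + G.dist w x.1 := hG.dist_triangle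
    rw [SimpleGraph.dist_comm (u := w') (v := w)] at h3
    refine ⟨⟨x, hmem x hx, ?_⟩, ⟨x, hmem x hx, ?_⟩⟩ <;> rcases h1 with h1 | h1 <;> omega
  · constructor
    · obtain ⟨x, hx⟩ := K_ne_zero G hG w i
      have h1 := K_near G hG hx
      refine ⟨x, hmem x ?_, by omega⟩
      rw [Finsupp.sub_apply]
      have a2 : K G hG w' i' x = 0 := by
        by_contra h
        have h2 := K_near G hG h
        have h3 : G.dist w w' ≤ G.dist w x.1 + G.dist x.1 w' := hG.dist_triangle
        rw [SimpleGraph.dist_comm (u := x.1) (v := w')] at h3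
        omega
      rw [a2, sub_zero]
      exact hx
    · obtain ⟨x, hx⟩ := K_ne_zero G hG w' i'
      have h1 := K_near G hG hx
      refine ⟨x, hmem x ?_, by omega⟩
      rw [Finsupp.sub_apply]
      have a2 : K G hG w i x = 0 := by
        by_contra h
        have h2 := K_near G hG h
        have h3 : G.dist w w' ≤ G.dist w x.1 + G.dist x.1 w' := hG.dist_triangle
        rw [SimpleGraph.dist_comm (u := x.1) (v := w')] at h3
        omega
      rw [a2, zero_sub, neg_ne_zero]
      exact hx

theorem finite_gen (hG : G.Connected) (hgr : Grows G hG) (F : Finset (V × Bool)) :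
    {q : (V × ℤ) × (V × ℤ) | q.1 ≠ q.2 ∧
      (K G hG q.1.1 q.1.2 - K G hG q.2.1 q.2.2).support ⊆ F}.Finite := by
  obtain ⟨R, hR⟩ := hgr F.card
  have hfin : ({w | Near G F (3 * R) w} ×ˢ Set.Icc (-(R : ℤ)) R).Finite :=
    (near_finite G hG F _).prod (Set.finite_Icc _ _)
  refine (hfin.prod hfin).subset ?_
  rintro ⟨⟨w, i⟩, ⟨w', i'⟩⟩ ⟨hne, hsup⟩
  obtain ⟨h1, h2⟩ := hR F le_rfl w w' i i' hne hsup
  obtain ⟨h3, h4⟩ := loc_gen G hG hgr hne (fun x hx => hsup (Finsupp.mem_support_iff.2 hx)) h1 h2
  refine ⟨⟨h3, ?_⟩, ⟨h4, ?_⟩⟩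
  · rw [Set.mem_Icc]; simp only; omega
  · rw [Set.mem_Icc]; simp only; omega

end Pool.Agent.W5h88.HL
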