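import Pool.Agent.W5h88.HL.Gen

set_option autoImplicit false

/-!
# The greedy construction for graphs with growing supports
-/

namespace Pool.Agent.W5h88.HL

open Finset

variable {V : Type*} (G : SimpleGraph V) [G.LocallyFinite]

/-- a new variable can be chosen -/
theorem extend_var' [DecidableEq V] (hG : G.Connected) (hgr : Grows G hG)
    {F : Finset (V × Bool)} {p : V × Bool → ℤ} (h : Good G hG F p) (y : V × Bool) :
    ∃ t : ℤ, Good G hG (insert y F) (Function.update p y t) := by
  have hfin := finite_gen G hG hgr (insert y F)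
  -- the bad values
  have hbad : ({t : ℤ | ∃ q ∈ {q : (V × ℤ) × (V × ℤ) | q.1 ≠ q.2 ∧
      (K G hG q.1.1 q.1.2 - K G hG q.2.1 q.2.2).support ⊆ insert y F},
      (K G hG q.1.1 q.1.2 - K G hG q.2.1 q.2.2) y ≠ 0 ∧
      ev (Function.update p y t) (K G hG q.1.1 q.1.2 - K G hG q.2.1 q.2.2) = 0}).Finite := by
    have h1 : {t : ℤ | ∃ q ∈ {q : (V × ℤ) × (V × ℤ) | q.1 ≠ q.2 ∧
      (K G hG q.1.1 q.1.2 - K G hG q.2.1 q.2.2).support ⊆ insert y F},
      (K G hG q.1.1 q.1.2 - K G hG q.2.1 q.2.2) y ≠ 0 ∧
      ev (Function.update p y t) (K G hG q.1.1 q.1.2 - K G hG q.2.1 q.2.2) = 0} ⊆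
      ⋃ q ∈ {q : (V × ℤ) × (V × ℤ) | q.1 ≠ q.2 ∧
        (K G hG q.1.1 q.1.2 - K G hG q.2.1 q.2.2).support ⊆ insert y F},
        {t : ℤ | (K G hG q.1.1 q.1.2 - K G hG q.2.1 q.2.2) y ≠ 0 ∧
          ev (Function.update p y t) (K G hG q.1.1 q.1.2 - K G hG q.2.1 q.2.2) = 0} := by
      rintro t ⟨q, hq, ht⟩
      simp only [Set.mem_iUnion]
      exact ⟨q, hq, ht⟩
    refine (hfin.biUnion fun q _ => ?_).subset h1
    refine Set.Subsingleton.finite ?_
    rintro t ⟨h2, h3⟩ t' ⟨-, h4⟩
    rw [ev_update] at h3 h4
    have h5 : (K G hG q.1.1 q.1.2 - K G hG q.2.1 q.2.2) y * (t - t') = 0 := by linarith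
    rcases mul_eq_zero.1 h5 with h6 | h6
    · exact absurd h6 h2
    · linarith
  obtain ⟨t, ht⟩ := hbad.infinite_compl.nonempty
  refine ⟨t, fun w w' i i' hne hsup => ?_⟩
  by_cases h0 : (K G hG w i - K G hG w' i') y = 0
  · rw [ev_update_of_zero p y t h0]
    refine h w w' i i' hne fun x hx => ?_
    rcases mem_insert.1 (hsup hx) with h1 | h1
    · rw [h1] at hx
      exact absurd h0 (Finsupp.mem_support_iff.1 hx)
    · exact h1
  · intro h1
    exact ht ⟨((w, i), (w', i')), ⟨hne, hsup⟩, h0, h1⟩

/-- a vertex far away from a finite set -/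
theorem exists_far' (hG : G.Connected) [Infinite V] (F : Finset (V × Bool)) (D : ℕ) :
    ∃ v : V, ∀ x ∈ F, D < G.dist v x.1 := by
  have h1 : (⋃ x ∈ F, {u | G.dist x.1 u ≤ D}).Finite :=
    F.finite_toSet.biUnion fun x _ => ball_finite G hG D x.1
  obtain ⟨v, hv⟩ := h1.infinite_compl.nonempty
  refine ⟨v, fun x hx => ?_⟩
  by_contra hc
  apply hv
  simp only [Set.mem_iUnion]
  refine ⟨x, hx, ?_⟩
  rw [Set.mem_ofPred_eq, SimpleGraph.dist_comm]
  omega

/-- a form supported in one variable, up to one coefficient -/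
theorem eq_single_of (L : V × Bool →₀ ℤ) (x : V × Bool) (h : ∀ y, L y ≠ 0 → y = x) :
    L = Finsupp.single x (L x) := by
  classical
  ext y
  rw [Finsupp.single_apply]
  split_ifs with hy
  · rw [hy]
  · by_contra hne
    exact hy (h y hne).symm

/-- The key case: the form of the first node contains the new variable `(v, false)`. -/
theorem key_gen [DecidableEq V] (hG : G.Connected) (hgr : Grows G hG)
    {F : Finset (V × Bool)} {R : ℕ} {v : V} (hv : ∀ x ∈ F, 20 * R + 20 < G.dist v x.1)
    {w w' : V} {i i' : ℤ}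
    (hmem : ∀ x, (K G hG w i - K G hG w' i') x ≠ 0 → x ∈ insert (v, false) F)
    (h0 : (K G hG w i - K G hG w' i') (v, false) ≠ 0)
    (hi : i.natAbs ≤ R) (hi' : i'.natAbs ≤ R) (hw : K G hG w i (v, false) ≠ 0) :
    w = v ∧ i = 0 ∧ (K G hG w' i').support ⊆ F := by
  have hwv : G.dist w v ≤ R := (K_near G hG hw).trans hi
  by_cases hd : G.dist w w' ≤ 2 * R
  · exfalso
    have h1 : ∀ y, (K G hG w i - K G hG w' i') y ≠ 0 → y = (v, false) := by
      intro y hy
      rcases mem_insert.1 (hmem y hy) with h | h
      · exact h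
      · exfalso
        have h2 := hv y h
        have h3 : G.dist w y.1 ≤ 3 * R := by
          by_contra hc
          apply hy
          rw [Finsupp.sub_apply]
          have a1 : K G hG w i y = 0 := by
            by_contra h
            have := K_near G hG h
            omega
          have a2 : K G hG w' i' y = 0 := by
            by_contra h
            have h4 := K_near G hG h
            have h5 : G.dist w y.1 ≤ G.dist w w' + G.dist w' y.1 := hG.dist_triangle
            omega
          rw [a1, a2, sub_zero]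
        have h4 : G.dist v y.1 ≤ G.dist v w + G.dist w y.1 := hG.dist_triangle
        rw [SimpleGraph.dist_comm (u := v) (v := w)] at h4
        omega
    have h2 := eq_single_of _ _ h1
    have h3 : ev (fun _ => 1) (K G hG w i - K G hG w' i') = 0 := by
      rw [ev_sub, ev_one, ev_one, sub_self]
    rw [h2, ev_single, mul_one] at h3
    exact h0 h3
  · have hdisj : ∀ y, K G hG w i y ≠ 0 → K G hG w' i' y = 0 := by
      intro y hy
      by_contra h
      have h1 := K_near G hG hy
      have h2 := K_near G hG h
      have h3 : G.dist w w' ≤ G.dist w y.1 + G.dist y.1 w' := hG.dist_triangle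
      rw [SimpleGraph.dist_comm (u := y.1) (v := w')] at h3
      omega
    have h1 : ∀ y, K G hG w i y ≠ 0 → y = (v, false) := by
      intro y hy
      have h2 : (K G hG w i - K G hG w' i') y ≠ 0 := by
        rw [Finsupp.sub_apply, hdisj y hy, sub_zero]
        exact hy
      rcases mem_insert.1 (hmem y h2) with h | h
      · exact h
      · exfalso
        have h3 := hv y h
        have h4 : G.dist v y.1 ≤ G.dist v w + G.dist w y.1 := hG.dist_triangle
        have h5 := K_near G hG hy
        rw [SimpleGraph.dist_comm (u := v) (v := w)] at h4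
        omega
    have h2 := eq_single_of _ _ h1
    have h3 := ev_one G hG w i
    rw [h2, ev_single, mul_one] at h3
    rw [h3, ← K_zero_false G hG v] at h2
    have h4 := K_inj G hG hgr h2
    refine ⟨congrArg Prod.fst h4, congrArg Prod.snd h4, fun y hy => ?_⟩
    have hy0 := Finsupp.mem_support_iff.1 hy
    have hy1 : K G hG w i y = 0 := by
      by_contra h
      exact hy0 (hdisj y h)
    have h5 : (K G hG w i - K G hG w' i') y ≠ 0 := by
      rw [Finsupp.sub_apply, hy1, zero_sub, neg_ne_zero]
      exact hy0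
    rcases mem_insert.1 (hmem y h5) with h | h
    · exfalso
      rw [h] at hy0
      exact hy0 (hdisj _ hw)
    · exact h

/-- a new value can be attained -/
theorem extend_val' [DecidableEq V] (hG : G.Connected) (hgr : Grows G hG) [Infinite V]
    {F : Finset (V × Bool)} {p : V × Bool → ℤ} (h : Good G hG F p) (m : ℤ) :
    ∃ (F' : Finset (V × Bool)) (p' : V × Bool → ℤ), Good G hG F' p' ∧ F ⊆ F' ∧
      (∀ x ∈ F, p' x = p x) ∧ ∃ (w : V) (i : ℤ), (K G hG w i).support ⊆ F' ∧
        ev p' (K G hG w i) = m := by
  by_cases hatt : ∃ (w : V) (i : ℤ), (K G hG w i).support ⊆ F ∧ ev p (K G hG w i) = m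
  · exact ⟨F, p, h, subset_rfl, fun _ _ => rfl, hatt⟩
  · push Not at hatt
    obtain ⟨R, hR⟩ := hgr (F.card + 1)
    obtain ⟨v, hv⟩ := exists_far' G hG F (20 * R + 20)
    have hvF : (v, false) ∉ F := by
      intro h1
      have := hv _ h1
      simp at this
    have hcard : (insert (v, false) F).card ≤ F.card + 1 := card_insert_le _ _
    refine ⟨insert (v, false) F, Function.update p (v, false) m, ?_, subset_insert _ _, ?_, v, 0,
      ?_, ?_⟩
    · intro w w' i i' hne hsup
      have hmem : ∀ x, (K G hG w i - K G hG w' i') x ≠ 0 → x ∈ insert (v, false) F := fun x hx =>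
        hsup (Finsupp.mem_support_iff.2 hx)
      by_cases h0 : (K G hG w i - K G hG w' i') (v, false) = 0
      · rw [ev_update_of_zero p _ m h0]
        refine h w w' i i' hne fun x hx => ?_
        rcases mem_insert.1 (hsup hx) with h1 | h1
        · rw [h1] at hx
          exact absurd h0 (Finsupp.mem_support_iff.1 hx)
        · exact h1
      · obtain ⟨hi, hi'⟩ := hR _ hcard w w' i i' hne hsup
        have hnear : K G hG w i (v, false) ≠ 0 ∨ K G hG w' i' (v, false) ≠ 0 := by
          by_contra hc
          push Not at hc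
          apply h0
          rw [Finsupp.sub_apply, hc.1, hc.2, sub_zero]
        rcases hnear with hnear | hnear
        · obtain ⟨rfl, rfl, hs⟩ := key_gen G hG hgr hv hmem h0 hi hi' hnear
          have h1 : ev (Function.update p (w, false) m) (K G hG w' i') = ev p (K G hG w' i') := by
            refine ev_congr fun x hx => ?_
            rw [Function.update_of_ne]
            rintro rfl
            exact hvF (hs hx)
          rw [ev_sub, h1, K_zero_false, ev_single, Function.update_self, one_mul]
          have h2 := hatt w' i' hs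
          intro h3
          exact h2 (by linarith)
        · have hsymm : ∀ x, (K G hG w' i' - K G hG w i) x ≠ 0 →
              (K G hG w i - K G hG w' i') x ≠ 0 := by
            intro x hx h1
            apply hx
            rw [Finsupp.sub_apply] at h1 ⊢
            linarith
          have h0' : (K G hG w' i' - K G hG w i) (v, false) ≠ 0 := by
            intro h1
            apply h0
            rw [Finsupp.sub_apply] at h1 ⊢
            linarith
          obtain ⟨rfl, rfl, hs⟩ := key_gen G hG hgr hv (fun x hx => hmem x (hsymm x hx)) h0' hi' hi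
            hnear
          have h1 : ev (Function.update p (w', false) m) (K G hG w i) = ev p (K G hG w i) := by
            refine ev_congr fun x hx => ?_
            rw [Function.update_of_ne]
            rintro rfl
            exact hvF (hs hx)
          rw [ev_sub, h1, K_zero_false, ev_single, Function.update_self, one_mul]
          have h2 := hatt w i hs
          intro h3
          exact h2 (by linarith)
    · intro x hx
      rw [Function.update_of_ne]
      rintro rfl
      exact hvF hx
    · rw [K_zero_false]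
      refine Finsupp.support_single_subset.trans ?_
      intro x hx
      rw [mem_singleton.1 hx]
      exact mem_insert_self _ _
    · rw [K_zero_false, ev_single, Function.update_self, one_mul]

/-- the states of the construction -/
structure St (hG : G.Connected) where
  /-- the finitely many variables whose values are fixed -/
  F : Finset (V × Bool)
  /-- the values -/
  p : V × Bool → ℤ
  /-- no collisions -/
  good : Good G hG F p

theorem good_empty' (hG : G.Connected) (hgr : Grows G hG) (p : V × Bool → ℤ) :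
    Good G hG ∅ p := by
  intro w w' i i' hne hsup
  obtain ⟨R, hR⟩ := hgr 0
  obtain ⟨hi, hi'⟩ := hR ∅ (by simp) w w' i i' hne hsup
  obtain ⟨⟨x, hx, -⟩, -⟩ := loc_gen G hG hgr hne (fun x hx => hsup (Finsupp.mem_support_iff.2 hx))
    hi hi'
  simp at hx

/-- the task `c` is done in the state `s` -/
def Done' (hG : G.Connected) (s : St G hG) : (V × Bool) ⊕ ℤ → Prop
  | Sum.inl y => y ∈ s.F
  | Sum.inr m => ∃ (w : V) (i : ℤ), (K G hG w i).support ⊆ s.F ∧ ev s.p (K G hG w i) = m

theorem step' (hG : G.Connected) (hgr : Grows G hG) [Infinite V] (s : St G hG)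
    (c : (V × Bool) ⊕ ℤ) : ∃ s' : St G hG, s.F ⊆ s'.F ∧ (∀ x ∈ s.F, s'.p x = s.p x) ∧
      Done' G hG s' c := by
  classical
  rcases c with y | m
  · by_cases hy : y ∈ s.F
    · exact ⟨s, subset_rfl, fun _ _ => rfl, hy⟩
    · obtain ⟨t, ht⟩ := extend_var' G hG hgr s.good y
      refine ⟨⟨_, _, ht⟩, subset_insert _ _, fun x hx => ?_, mem_insert_self _ _⟩
      simp only
      rw [Function.update_of_ne]
      rintro rfl
      exact hy hx
  · obtain ⟨F', p', hgood, hF, hp, hm⟩ := extend_val' G hG hgr s.good m
    exact ⟨⟨F', p', hgood⟩, hF, hp, hm⟩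

/-- **The general theorem**, in terms of functions of two variables. -/
theorem main_gen (hG : G.Connected) (hgr : Grows G hG) [Infinite V] [Countable V] :
    ∃ φ : V × ℤ → ℤ, Function.Bijective φ ∧ ∀ (w : V) (i : ℤ),
      ((G.degree w : ℤ) + 2) * φ (w, i) =
        φ (w, i - 1) + φ (w, i + 1) + ∑ z ∈ G.neighborFinset w, φ (z, i) := by
  classical
  obtain ⟨e, he⟩ := exists_surjective_nat ((V × Bool) ⊕ ℤ)
  choose nxt h1 h2 h3 using step' G hG hgr
  let st : ℕ → St G hG := fun n =>
    Nat.rec ⟨∅, fun _ => 0, good_empty' G hG hgr _⟩ (fun n s => nxt s (e n)) n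
  have hst : ∀ n, st (n + 1) = nxt (st n) (e n) := fun n => rfl
  have hmono : ∀ n k, n ≤ k → (st n).F ⊆ (st k).F ∧ ∀ x ∈ (st n).F, (st k).p x = (st n).p x := by
    intro n k hnk
    induction k, hnk using Nat.le_induction with
    | base => exact ⟨subset_rfl, fun _ _ => rfl⟩
    | succ k hk ih =>
      rw [hst]
      refine ⟨ih.1.trans (h1 _ _), fun x hx => ?_⟩
      rw [h2 _ _ x (ih.1 hx)]
      exact ih.2 x hx
  have hex : ∀ x : V × Bool, ∃ n, x ∈ (st n).F := by
    intro x
    obtain ⟨n, hn⟩ := he (Sum.inl x)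
    refine ⟨n + 1, ?_⟩
    rw [hst, hn]
    exact h3 (st n) (Sum.inl x)
  choose N hN using hex
  let q : V × Bool → ℤ := fun x => (st (N x)).p x
  have hq : ∀ n, ∀ x ∈ (st n).F, (st n).p x = q x := by
    intro n x hx
    rcases le_total n (N x) with h | h
    · exact ((hmono _ _ h).2 x hx).symm
    · exact (hmono _ _ h).2 x (hN x)
  have hsupp : ∀ S : Finset (V × Bool), ∃ n, S ⊆ (st n).F := by
    intro S
    refine ⟨∑ x ∈ S, N x, fun x hx => ?_⟩
    have h4 : N x ≤ ∑ x ∈ S, N x := single_le_sum (f := N) (fun _ _ => Nat.zero_le _) hx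
    exact (hmono _ _ h4).1 (hN x)
  refine ⟨fun y => ev q (K G hG y.1 y.2), ⟨?_, ?_⟩, ?_⟩
  · rintro ⟨w, i⟩ ⟨w', i'⟩ heq
    by_contra hne
    obtain ⟨n, hn⟩ := hsupp (K G hG w i - K G hG w' i').support
    have h4 := (st n).good w w' i i' hne hn
    apply h4
    rw [ev_congr (q := q) (fun x hx => hq n x (hn hx)), ev_sub]
    simp only at heq
    rw [heq, sub_self]
  · intro m
    obtain ⟨n, hn⟩ := he (Sum.inr m)
    obtain ⟨w, i, h4, h5⟩ : Done' G hG (st (n + 1)) (Sum.inr m) := by
      rw [hst, hn]
      exact h3 (st n) (Sum.inr m)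
    refine ⟨(w, i), ?_⟩
    simp only
    rw [← h5]
    exact (ev_congr fun x hx => hq (n + 1) x (h4 hx)).symm
  · intro w i
    exact ev_harm G hG q w i

end Pool.Agent.W5h88.HL
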