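import Pool.Agent.W5h88.HL.Form

set_option autoImplicit false

/-!
# The greedy construction
-/

namespace Pool.Agent.W5h88.HL

open Finset

variable {V : Type*} (G : SimpleGraph V) [G.LocallyFinite]

/-- the values on `F` separate all pairs of nodes whose difference is determined by `F` -/
def Good (hG : G.Connected) (F : Finset (V × Bool)) (p : V × Bool → ℤ) : Prop :=
  ∀ (w w' : V) (i i' : ℤ), (w, i) ≠ (w', i') → (K G hG w i - K G hG w' i').support ⊆ F →
    ev p (K G hG w i - K G hG w' i') ≠ 0

omit [G.LocallyFinite] in
theorem ev_update [DecidableEq V] (p : V × Bool → ℤ) (y : V × Bool) (t : ℤ) (L : V × Bool →₀ ℤ) :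
    ev (Function.update p y t) L = ev p (L.erase y) + L y * t := by
  conv_lhs => rw [← Finsupp.erase_add_single y L]
  rw [ev_add, ev_single, Function.update_self]
  congr 1
  refine ev_congr fun x hx => ?_
  rw [Finsupp.support_erase, mem_erase] at hx
  rw [Function.update_of_ne hx.1]

theorem ev_update_of_zero [DecidableEq V] (p : V × Bool → ℤ) (y : V × Bool) (t : ℤ)
    {L : V × Bool →₀ ℤ} (h : L y = 0) : ev (Function.update p y t) L = ev p L := by
  refine ev_congr fun x hx => ?_
  rw [Function.update_of_ne]
  rintro rfl
  exact (Finsupp.mem_support_iff.1 hx) h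

/-- a new variable can be chosen -/
theorem extend_var [DecidableEq V] (hG : G.Connected) (hS : Spread G) [Nontrivial V]
    {F : Finset (V × Bool)} {p : V × Bool → ℤ} (h : Good G hG F p) (y : V × Bool) :
    ∃ t : ℤ, Good G hG (insert y F) (Function.update p y t) := by
  by_cases hy : y ∈ F
  · refine ⟨p y, ?_⟩
    rw [insert_eq_of_mem hy, Function.update_eq_self]
    exact h
  · have hfin := finite_pairs G hG hS (insert y F)
    -- the bad values
    have hbad : ({t : ℤ | ∃ q ∈ {q : (V × ℤ) × (V × ℤ) | q.1 ≠ q.2 ∧
        (K G hG q.1.1 q.1.2 - K G hG q.2.1 q.2.2).support ⊆ insert y F},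
        (K G hG q.1.1 q.1.2 - K G hG q.2.1 q.2.2) y ≠ 0 ∧
        ev (Function.update p y t) (K G hG q.1.1 q.1.2 - K G hG q.2.1 q.2.2) = 0}).Finite := by
      have h1 : {t : ℤ | ∃ q ∈ {q : (V × ℤ) × (V × ℤ) | q.1 ≠ q.2 ∧
        (K G hG q.1.1 q.1.2 - K G hG q.2.1 q.2.2).support ⊆ insert y F},
        (K G hG q.1.1 q.1.2 - K G hG q.2.1 q.2.2) y ≠ 0 ∧
        ev (Function.update p y t) (K G hG q.1.1 q.1.2 - K G hG q.2.1 q.2.2) = 0} ⊆
        ⋃ q ∈ {q : (V × ℤ) × (V × ℤ) | q.1 ≠ q.2 ∧
          (K G hG q.1.1 q.1.2 - K G hG q.2.1 q.2.2).support ⊆ insert y F},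
          {t : ℤ | (K G hG q.1.1 q.1.2 - K G hG q.2.1 q.2.2) y ≠ 0 ∧
            ev (Function.update p y t) (K G hG q.1.1 q.1.2 - K G hG q.2.1 q.2.2) = 0} := by
        rintro t ⟨q, hq, ht⟩
        simp only [Set.mem_iUnion]
        exact ⟨q, hq, ht⟩
      refine (hfin.biUnion fun q _ => ?_).subset h1
      refine Set.Subsingleton.finite ?_
      rintro t ⟨h2, h3⟩ t' ⟨-, h4⟩
      rw [ev_update] at h3 h4
      have h5 : (K G hG q.1.1 q.1.2 - K G hG q.2.1 q.2.2) y * (t - t') = 0 := by linarith
      rcases mul_eq_zero.1 h5 with h6 | h6
      · exact absurd h6 h2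
      · linarith
    obtain ⟨t, ht⟩ := hbad.infinite_compl.nonempty
    refine ⟨t, fun w w' i i' hne hsup => ?_⟩
    by_cases h0 : (K G hG w i - K G hG w' i') y = 0
    · rw [ev_update_of_zero p y t h0]
      refine h w w' i i' hne fun x hx => ?_
      rcases mem_insert.1 (hsup hx) with h1 | h1
      · rw [h1] at hx
        exact absurd h0 (Finsupp.mem_support_iff.1 hx)
      · exact h1
    · intro h1
      exact ht ⟨((w, i), (w', i')), ⟨hne, hsup⟩, h0, h1⟩

/-- a vertex far away from a finite set -/
theorem exists_far (hG : G.Connected) (hS : Spread G) [Nontrivial V] (F : Finset (V × Bool))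
    (D : ℕ) : ∃ v : V, ∀ x ∈ F, D < G.dist v x.1 := by
  obtain ⟨a, b, hab⟩ := exists_pair_ne V
  obtain ⟨v, hv, -⟩ := hS.1 a b hab (∑ x ∈ F, G.dist a x.1 + D + 1)
  refine ⟨v, fun x hx => ?_⟩
  have h1 : G.dist a x.1 ≤ ∑ x ∈ F, G.dist a x.1 :=
    single_le_sum (f := fun x : V × Bool => G.dist a x.1) (fun _ _ => Nat.zero_le _) hx
  have h2 : G.dist a v ≤ G.dist a x.1 + G.dist x.1 v := hG.dist_triangle
  rw [SimpleGraph.dist_comm (u := x.1) (v := v)] at h2
  omega

/-- The key case of the next lemma: the coefficient at the new variable `(v, false)` is not zero, and the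
first node is near `v`. -/
theorem key_case [DecidableEq V] (hG : G.Connected) (hS : Spread G) [Nontrivial V]
    {F : Finset (V × Bool)} {R : ℕ} {v : V} (hv : ∀ x ∈ F, 20 * R + 20 < G.dist v x.1)
    {w w' : V} {i i' : ℤ} (hne : (w, i) ≠ (w', i'))
    (hmem : ∀ x, (K G hG w i - K G hG w' i') x ≠ 0 → x ∈ insert (v, false) F)
    (hi : i.natAbs ≤ R) (hi' : i'.natAbs ≤ R) (hn : G.dist w v ≤ 4 * R + 4)
    (hn' : Near G (insert (v, false) F) (4 * R + 4) w') :
    w = v ∧ i = 0 ∧ (K G hG w' i').support ⊆ F := by
  have hmemF : ∀ u : V, (K G hG w i - K G hG w' i') (u, true) ≠ 0 → (u, true) ∈ F := fun u hu => by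
    rcases mem_insert.1 (hmem _ hu) with h | h
    · exact absurd (congrArg Prod.snd h) (by simp)
    · exact h
  -- `w'` is near `v` or near `F`
  by_cases hnv : G.dist w' v ≤ 4 * R + 4
  · exfalso
    by_cases hmax : i = 0 ∧ i' = 0
    · obtain ⟨rfl, rfl⟩ := hmax
      have hww : w ≠ w' := fun h => hne (by rw [h])
      have e0 : (0 : ℤ) - 1 = -1 := by norm_num
      have hdp : 0 < G.dist w w' := hG.pos_dist_of_ne hww
      have hdp' : 0 < G.dist w' w := hG.pos_dist_of_ne hww.symm
      have h1 : (w, false) ∈ insert (v, false) F := hmem _ (by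
        rw [Finsupp.sub_apply, K_false, K_false, e0, cc_one_self G hG,
          cc_far G hG (w := w') (u := w) (i := -1) (by simp; omega)]
        norm_num)
      have h2 : (w', false) ∈ insert (v, false) F := hmem _ (by
        rw [Finsupp.sub_apply, K_false, K_false, e0, cc_one_self G hG,
          cc_far G hG (w := w) (u := w') (i := -1) (by simp; omega)]
        norm_num)
      rcases mem_insert.1 h1 with h1 | h1
      · rcases mem_insert.1 h2 with h2 | h2
        · apply hww
          exact (congrArg Prod.fst h1).trans (congrArg Prod.fst h2).symm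
        · have := hv _ h2
          simp only at this
          rw [SimpleGraph.dist_comm] at this
          omega
      · have := hv _ h1
        simp only at this
        rw [SimpleGraph.dist_comm] at this
        omega
    · -- a vertex in the true layer near `v`
      have hex : ∃ u, G.dist u v ≤ 5 * R + 4 ∧ (K G hG w i - K G hG w' i') (u, true) ≠ 0 := by
        by_cases hw : w = w'
        · subst hw
          have hii : i ≠ i' := fun h => hne (by rw [h])
          obtain ⟨w'', hw''⟩ := exists_ne w
          rcases le_total i'.natAbs i.natAbs with h | h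
          · obtain ⟨r, hr⟩ : ∃ r, i.natAbs = r + 1 := ⟨i.natAbs - 1, by omega⟩
            obtain ⟨u, hu, -⟩ := hS.1 w w'' hw''.symm r
            refine ⟨u, ?_, sphere_same G hG hii hr h hu⟩
            have h1 : G.dist u v ≤ G.dist u w + G.dist w v := hG.dist_triangle
            rw [SimpleGraph.dist_comm (u := u) (v := w)] at h1
            omega
          · obtain ⟨r, hr⟩ : ∃ r, i'.natAbs = r + 1 := ⟨i'.natAbs - 1, by omega⟩
            obtain ⟨u, hu, -⟩ := hS.1 w w'' hw''.symm r
            refine ⟨u, ?_, ?_⟩
            · have h1 : G.dist u v ≤ G.dist u w + G.dist w v := hG.dist_triangle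
              rw [SimpleGraph.dist_comm (u := u) (v := w)] at h1
              omega
            · have h3 := sphere_same G hG hii.symm hr h hu
              intro h4
              apply h3
              rw [Finsupp.sub_apply] at h4 ⊢
              linarith
        · rcases le_total i'.natAbs i.natAbs with h | h
          · obtain ⟨r, hr⟩ : ∃ r, i.natAbs = r + 1 := ⟨i.natAbs - 1, by omega⟩
            obtain ⟨u, hu1, hu2⟩ := hS.1 w w' hw r
            refine ⟨u, ?_, sphere_ne G hG hr h hu1 hu2⟩
            have h1 : G.dist u v ≤ G.dist u w + G.dist w v := hG.dist_triangle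
            rw [SimpleGraph.dist_comm (u := u) (v := w)] at h1
            omega
          · obtain ⟨r, hr⟩ : ∃ r, i'.natAbs = r + 1 := ⟨i'.natAbs - 1, by omega⟩
            obtain ⟨u, hu1, hu2⟩ := hS.1 w' w (fun h => hw h.symm) r
            refine ⟨u, ?_, sphere_ne' G hG hr h hu1 hu2⟩
            have h1 : G.dist u v ≤ G.dist u w' + G.dist w' v := hG.dist_triangle
            rw [SimpleGraph.dist_comm (u := u) (v := w')] at h1
            omega
      obtain ⟨u, hu, hu'⟩ := hex
      have h1 := hv _ (hmemF u hu')
      simp only at h1
      rw [SimpleGraph.dist_comm] at h1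
      omega
  · -- `w'` is near `F`
    obtain ⟨x, hx, hxd⟩ := hn'
    rcases mem_insert.1 hx with h | h
    · rw [h] at hxd
      exact absurd hxd hnv
    · have hfar : 12 * R + 12 < G.dist w w' := by
        have h1 := hv x h
        have h2 : G.dist v x.1 ≤ G.dist v w + G.dist w x.1 := hG.dist_triangle
        have h3 : G.dist w x.1 ≤ G.dist w w' + G.dist w' x.1 := hG.dist_triangle
        rw [SimpleGraph.dist_comm (u := v) (v := w)] at h2
        omega
      have hi0 : i = 0 := by
        by_contra hc
        obtain ⟨r, hr⟩ : ∃ r, i.natAbs = r + 1 := ⟨i.natAbs - 1, by omega⟩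
        have hw : w ≠ w' := by
          rintro rfl
          simp at hfar
        obtain ⟨u, hu1, -⟩ := hS.1 w w' hw r
        have h1 : G.dist w w' ≤ G.dist w u + G.dist u w' := hG.dist_triangle
        rw [SimpleGraph.dist_comm (u := u) (v := w')] at h1
        have h2 : (K G hG w i - K G hG w' i') (u, true) ≠ 0 := by
          rw [Finsupp.sub_apply, K_true, K_true,
            cc_far G hG (i := i') (w := w') (u := u) (by omega), sub_zero]
          exact cc_front G hG (by omega)
        have h3 := hv _ (hmemF u h2)
        simp only at h3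
        have h4 : G.dist v u ≤ G.dist v w + G.dist w u := hG.dist_triangle
        rw [SimpleGraph.dist_comm (u := v) (v := w)] at h4
        omega
      subst hi0
      have e0 : (0 : ℤ) - 1 = -1 := by norm_num
      have hwv : w = v := by
        have h1 : (w, false) ∈ insert (v, false) F := hmem _ (by
          rw [Finsupp.sub_apply, K_false, K_false, e0, cc_one_self G hG,
            cc_far G hG (w := w') (u := w) (i := i' - 1) (by
              rw [SimpleGraph.dist_comm]
              omega)]
          norm_num)
        rcases mem_insert.1 h1 with h1 | h1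
        · exact congrArg Prod.fst h1
        · have h2 := hv _ h1
          simp only at h2
          rw [SimpleGraph.dist_comm] at h2
          omega
      subst hwv
      refine ⟨rfl, rfl, fun x hx => ?_⟩
      obtain ⟨u, b⟩ := x
      have hx0 := Finsupp.mem_support_iff.1 hx
      have hud : G.dist w' u ≤ R + 1 := by
        cases b
        · rw [K_false, neg_ne_zero] at hx0
          have := cc_near G hG hx0
          omega
        · rw [K_true] at hx0
          have := cc_near G hG hx0
          omega
      have h1 : G.dist w w' ≤ G.dist w u + G.dist u w' := hG.dist_triangle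
      rw [SimpleGraph.dist_comm (u := u) (v := w')] at h1
      have huw : G.dist w u ≠ 0 := by omega
      have h2 : (K G hG w 0 - K G hG w' i') (u, b) ≠ 0 := by
        have h3 : K G hG w 0 (u, b) = 0 := by
          cases b
          · rw [K_false, e0, cc_far G hG (i := -1) (w := w) (u := u) (by simp; omega), neg_zero]
          · rw [K_true, cc_far G hG (i := 0) (w := w) (u := u) (by simp)]
        rw [Finsupp.sub_apply, h3, zero_sub, neg_ne_zero]
        exact hx0
      rcases mem_insert.1 (hmem _ h2) with h3 | h3
      · exfalso
        apply huw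
        have h5 : u = w := congrArg Prod.fst h3
        rw [h5]
        simp
      · exact h3

theorem K_zero_false (hG : G.Connected) (v : V) : K G hG v 0 = Finsupp.single (v, false) 1 := by
  classical
  ext ⟨u, b⟩
  have e0 : (0 : ℤ) - 1 = -1 := by norm_num
  cases b
  · rw [K_false, e0]
    by_cases h : u = v
    · subst h
      rw [cc_one_self G hG]
      simp
    · have hd : 0 < G.dist v u := hG.pos_dist_of_ne (fun h' => h h'.symm)
      rw [cc_far G hG (i := -1) (w := v) (u := u) (by simp; omega)]
      rw [Finsupp.single_apply, if_neg (by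
        intro h'
        exact h (congrArg Prod.fst h').symm)]
      simp
  · rw [K_true, cc_far G hG (i := 0) (w := v) (u := u) (by simp), Finsupp.single_apply,
      if_neg (by simp)]

/-- a new value can be attained -/
theorem extend_val [DecidableEq V] (hG : G.Connected) (hS : Spread G) [Nontrivial V]
    {F : Finset (V × Bool)} {p : V × Bool → ℤ} (h : Good G hG F p) (m : ℤ) :
    ∃ (F' : Finset (V × Bool)) (p' : V × Bool → ℤ), Good G hG F' p' ∧ F ⊆ F' ∧
      (∀ x ∈ F, p' x = p x) ∧ ∃ (w : V) (i : ℤ), (K G hG w i).support ⊆ F' ∧
        ev p' (K G hG w i) = m := by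
  by_cases hatt : ∃ (w : V) (i : ℤ), (K G hG w i).support ⊆ F ∧ ev p (K G hG w i) = m
  · exact ⟨F, p, h, subset_rfl, fun _ _ => rfl, hatt⟩
  · push Not at hatt
    obtain ⟨R, hR⟩ := height_bound G hG hS (F.card + 1)
    obtain ⟨v, hv⟩ := exists_far G hG hS F (20 * R + 20)
    have hvF : (v, false) ∉ F := by
      intro h1
      have := hv _ h1
      simp at this
    have hcard : (insert (v, false) F).card ≤ F.card + 1 := card_insert_le _ _
    refine ⟨insert (v, false) F, Function.update p (v, false) m, ?_, subset_insert _ _, ?_, v, 0,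
      ?_, ?_⟩
    · intro w w' i i' hne hsup
      have hmem : ∀ x, (K G hG w i - K G hG w' i') x ≠ 0 → x ∈ insert (v, false) F := fun x hx =>
        hsup (Finsupp.mem_support_iff.2 hx)
      by_cases h0 : (K G hG w i - K G hG w' i') (v, false) = 0
      · rw [ev_update_of_zero p _ m h0]
        refine h w w' i i' hne fun x hx => ?_
        rcases mem_insert.1 (hsup hx) with h1 | h1
        · rw [h1] at hx
          exact absurd h0 (Finsupp.mem_support_iff.1 hx)
        · exact h1
      · obtain ⟨hi, hi'⟩ := hR _ hcard w w' i i' hne hsup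
        obtain ⟨hn, hn'⟩ := location G hG hS hne hsup hi hi'
        -- one of the two nodes is near `v`
        have hnear : G.dist w v ≤ 4 * R + 4 ∨ G.dist w' v ≤ 4 * R + 4 := by
          by_contra hc
          push Not at hc
          apply h0
          rw [Finsupp.sub_apply, K_false, K_false,
            cc_far G hG (i := i - 1) (w := w) (u := v) (by omega),
            cc_far G hG (i := i' - 1) (w := w') (u := v) (by omega)]
          simp
        rcases hnear with hnear | hnear
        · obtain ⟨rfl, rfl, hs⟩ := key_case G hG hS hv hne hmem hi hi' hnear hn'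
          have h1 : ev (Function.update p (w, false) m) (K G hG w' i') = ev p (K G hG w' i') := by
            refine ev_congr fun x hx => ?_
            rw [Function.update_of_ne]
            rintro rfl
            exact hvF (hs hx)
          rw [ev_sub, h1, K_zero_false, ev_single, Function.update_self, one_mul]
          have h2 := hatt w' i' hs
          intro h3
          exact h2 (by linarith)
        · obtain ⟨rfl, rfl, hs⟩ := key_case G hG hS hv hne.symm (fun x hx => hmem x (by
            intro h1
            apply hx
            rw [Finsupp.sub_apply] at h1 ⊢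
            linarith)) hi' hi hnear hn
          have h1 : ev (Function.update p (w', false) m) (K G hG w i) = ev p (K G hG w i) := by
            refine ev_congr fun x hx => ?_
            rw [Function.update_of_ne]
            rintro rfl
            exact hvF (hs hx)
          rw [ev_sub, h1, K_zero_false, ev_single, Function.update_self, one_mul]
          have h2 := hatt w i hs
          intro h3
          exact h2 (by linarith)
    · intro x hx
      rw [Function.update_of_ne]
      rintro rfl
      exact hvF hx
    · rw [K_zero_false]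
      refine Finsupp.support_single_subset.trans ?_
      intro x hx
      rw [mem_singleton.1 hx]
      exact mem_insert_self _ _
    · rw [K_zero_false, ev_single, Function.update_self, one_mul]

end Pool.Agent.W5h88.HL
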