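import Mathlib

set_option autoImplicit false

/-!
# Partitions of `ℤ` into arithmetic progressions
-/

namespace Pool.Agent.W5h88.HL

open Finset

/-- `ℤ` is the disjoint union of infinitely many two sided arithmetic progressions -/
theorem ap_nat : ∃ a b : ℕ → ℤ, (∀ n, b n ≠ 0) ∧
    Function.Bijective fun x : ℕ × ℤ => a x.1 + b x.1 * x.2 := by
  have hdvd : ∀ n : ℕ, ∃ a : ℤ, 3 * a = 1 - (-2) ^ n := by
    intro n
    have h := sub_dvd_pow_sub_pow (1 : ℤ) (-2) n
    rw [one_pow] at h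
    obtain ⟨a, ha⟩ := h
    exact ⟨a, by rw [ha]; norm_num⟩
  choose a ha using hdvd
  refine ⟨a, fun n => 2 ^ (n + 1), fun n => by positivity, ?_, ?_⟩
  · -- injectivity
    have key : ∀ (n : ℕ) (k : ℤ), ∃ c : ℤ, 3 * (a n + 2 ^ (n + 1) * k) - 1 = 2 ^ n * (2 * c + 1) := by
      intro n k
      rcases Nat.even_or_odd n with h | h
      · refine ⟨3 * k - 1, ?_⟩
        have h1 : (-2 : ℤ) ^ n = 2 ^ n := h.neg_pow 2
        rw [mul_add, ha, h1, pow_succ]
        ring
      · refine ⟨3 * k, ?_⟩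
        have h1 : (-2 : ℤ) ^ n = - 2 ^ n := h.neg_pow 2
        rw [mul_add, ha, h1, pow_succ]
        ring
    have hlt : ∀ (n m : ℕ) (c e : ℤ), n < m → (2 : ℤ) ^ n * (2 * c + 1) ≠ 2 ^ m * (2 * e + 1) := by
      intro n m c e hnm heq
      obtain ⟨l, rfl⟩ : ∃ l, m = n + 1 + l := ⟨m - n - 1, by omega⟩
      have h1 : (2 : ℤ) ^ (n + 1 + l) = 2 ^ n * (2 * 2 ^ l) := by rw [pow_add, pow_succ]; ring
      rw [h1, mul_assoc] at heq
      have h2 := mul_left_cancel₀ (by positivity) heq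
      have h3 : (2 : ℤ) ∣ 2 * c + 1 := by
        rw [h2, mul_assoc]
        exact dvd_mul_right _ _
      omega
    rintro ⟨n, k⟩ ⟨m, l⟩ h
    simp only at h
    obtain ⟨c, hc⟩ := key n k
    obtain ⟨e, he⟩ := key m l
    rw [h, he] at hc
    have hnm : n = m := by
      rcases lt_trichotomy n m with h1 | h1 | h1
      · exact absurd hc.symm (hlt n m c e h1)
      · exact h1
      · exact absurd hc (hlt m n e c h1)
    subst hnm
    have h2 : (2 : ℤ) ^ (n + 1) * k = 2 ^ (n + 1) * l := by linarith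
    have h3 := mul_left_cancel₀ (by positivity) h2
    rw [h3]
  · -- surjectivity
    intro x
    have hne : 3 * x - 1 ≠ 0 := by omega
    obtain ⟨n, m, hm, hx⟩ : ∃ (n : ℕ) (m : ℤ), ¬ (2 : ℤ) ∣ m ∧ 3 * x - 1 = 2 ^ n * m := by
      have hfin : FiniteMultiplicity (2 : ℤ) (3 * x - 1) := by
        rw [Int.finiteMultiplicity_iff]
        exact ⟨by norm_num, hne⟩
      obtain ⟨m, h1, h2⟩ := hfin.exists_eq_pow_mul_and_not_dvd
      exact ⟨_, m, h2, h1⟩
    obtain ⟨l, hl⟩ : ∃ l : ℤ, 3 * x - 3 * a n = 2 ^ (n + 1) * l := by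
      obtain ⟨c, hc⟩ : ∃ c, m = 2 * c + 1 := ⟨m / 2, by omega⟩
      rcases Nat.even_or_odd n with h | h
      · refine ⟨c + 1, ?_⟩
        have h1 : (-2 : ℤ) ^ n = 2 ^ n := h.neg_pow 2
        rw [ha, h1, pow_succ]
        rw [hc] at hx
        linarith
      · refine ⟨c, ?_⟩
        have h1 : (-2 : ℤ) ^ n = - 2 ^ n := h.neg_pow 2
        rw [ha, h1, pow_succ]
        rw [hc] at hx
        linarith
    have h3 : (3 : ℤ) ∣ l := by
      have h4 : (3 : ℤ) ∣ 2 ^ (n + 1) * l := ⟨x - a n, by rw [← hl]; ring⟩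
      have h5 : IsCoprime (3 : ℤ) (2 ^ (n + 1)) := by
        apply IsCoprime.pow_right
        exact ⟨1, -1, by norm_num⟩
      exact h5.dvd_of_dvd_mul_left h4
    obtain ⟨k, rfl⟩ := h3
    refine ⟨(n, k), ?_⟩
    simp only
    linarith

/-- `ℤ` is the disjoint union of any countable number of arithmetic progressions -/
theorem ap_countable (ι : Type*) [Countable ι] [Nonempty ι] : ∃ a b : ι → ℤ, (∀ n, b n ≠ 0) ∧
    Function.Bijective fun x : ι × ℤ => a x.1 + b x.1 * x.2 := by
  classical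
  rcases finite_or_infinite ι with hfin | hinf
  · obtain ⟨n, ⟨e⟩⟩ := Finite.exists_equiv_fin ι
    have hn : 0 < n := by
      obtain ⟨i⟩ := ‹Nonempty ι›
      exact (Nat.zero_le _).trans_lt (e i).2
    refine ⟨fun i => (e i : ℕ), fun _ => n, fun _ => by positivity, ?_, ?_⟩
    · rintro ⟨i, k⟩ ⟨j, l⟩ h
      simp only at h
      have hi := (e i).2
      have hj := (e j).2
      have h1 : ((e i : ℕ) : ℤ) = (e j : ℕ) := by
        have h2 := congrArg (· % (n : ℤ)) h
        simp only [Int.add_mul_emod_self_left] at h2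
        rwa [Int.emod_eq_of_lt (by positivity) (by exact_mod_cast hi),
          Int.emod_eq_of_lt (by positivity) (by exact_mod_cast hj)] at h2
      have h3 : (n : ℤ) * k = n * l := by linarith
      have h4 := mul_left_cancel₀ (by positivity) h3
      have h5 : e i = e j := Fin.ext (by exact_mod_cast h1)
      rw [e.injective h5, h4]
    · intro x
      have h1 : 0 ≤ x % (n : ℤ) := Int.emod_nonneg _ (by positivity)
      have h2 : x % (n : ℤ) < n := Int.emod_lt_of_pos _ (by positivity)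
      refine ⟨(e.symm ⟨(x % (n : ℤ)).toNat, by omega⟩, x / n), ?_⟩
      simp only [Equiv.apply_symm_apply]
      rw [Int.toNat_of_nonneg h1]
      exact Int.emod_add_mul_ediv x n
  · obtain ⟨e⟩ : Nonempty (ι ≃ ℕ) := by
      have := Encodable.ofCountable ι
      have := Denumerable.ofEncodableOfInfinite ι
      exact ⟨Denumerable.eqv ι⟩
    obtain ⟨a, b, hb, hbij⟩ := ap_nat
    refine ⟨fun i => a (e i), fun i => b (e i), fun i => hb _, ?_⟩
    have h := hbij.comp (Equiv.prodCongr e (Equiv.refl ℤ)).bijective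
    exact h

end Pool.Agent.W5h88.HL
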