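import Pool.Agent.W5h88.HL.Main
import Pool.Agent.W5h88.HL.Union

set_option autoImplicit false

/-!
# Harmonic labelings: definitions, and disjoint unions
-/

namespace Pool.Agent.W5h88.HL

open Finset SimpleGraph

/-- The two-way infinite path: the integers `i`, `j` are adjacent when `|i - j| = 1`. -/
def lineZ : SimpleGraph ℤ where
  Adj i j := |i - j| = 1
  symm := ⟨fun i j h => by rw [abs_sub_comm]; exact h⟩
  loopless := ⟨fun i h => by simp at h⟩

/-- `φ` is a harmonic labeling of `H`: a bijection from the vertices onto `ℤ` such that each vertex has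
finitely many, and at least one, neighbours and `φ x` is the average of `φ` over the neighbours. -/
def IsHarmonicLabeling {W : Type*} (H : SimpleGraph W) (φ : W → ℤ) : Prop :=
  Function.Bijective φ ∧ ∀ x, (H.neighborSet x).Finite ∧ 0 < (H.neighborSet x).ncard ∧
    (φ x : ℚ) = 1 / ((H.neighborSet x).ncard : ℚ) * ∑ᶠ y ∈ H.neighborSet x, (φ y : ℚ)

theorem lineZ_nbr (i : ℤ) : lineZ.neighborSet i = ((({i - 1, i + 1} : Finset ℤ)) : Set ℤ) := by
  ext j
  rw [mem_neighborSet, mem_coe, mem_insert, mem_singleton]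
  show |i - j| = 1 ↔ _
  rw [abs_eq (by norm_num)]
  constructor
  · rintro (h | h)
    · left; omega
    · right; omega
  · rintro (h | h)
    · left; omega
    · right; omega

/-- the neighbours in the product, as a finite set -/
theorem prod_nbr {V : Type*} (G : SimpleGraph V) [G.LocallyFinite] (v : V) (i : ℤ) :
    ∃ S : Finset (V × ℤ), (G □ lineZ).neighborSet (v, i) = (S : Set (V × ℤ)) ∧
      S.card = G.degree v + 2 ∧ ∀ f : V × ℤ → ℚ, ∑ y ∈ S, f y =
        f (v, i - 1) + f (v, i + 1) + ∑ z ∈ G.neighborFinset v, f (z, i) := by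
  classical
  set A : Finset (V × ℤ) := {(v, i - 1), (v, i + 1)} with hA
  set B : Finset (V × ℤ) := (G.neighborFinset v).map ⟨fun z => (z, i), fun x y h =>
    congrArg Prod.fst h⟩ with hB
  have hdisj : Disjoint A B := by
    rw [Finset.disjoint_left]
    intro x hx hx'
    rw [hA, mem_insert, mem_singleton] at hx
    rw [hB, mem_map] at hx'
    obtain ⟨z, hz, rfl⟩ := hx'
    rcases hx with h | h
    · have h2 : i = i - 1 := congrArg Prod.snd h
      omega
    · have h2 : i = i + 1 := congrArg Prod.snd h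
      omega
  have hne : ((v, i - 1) : V × ℤ) ≠ (v, i + 1) := fun h => by
    have := congrArg Prod.snd h
    simp only at this
    omega
  refine ⟨A ∪ B, ?_, ?_, fun f => ?_⟩
  · ext ⟨w, j⟩
    rw [mem_neighborSet, boxProd_adj, mem_coe, mem_union, hA, hB, mem_insert, mem_singleton, mem_map]
    have h1 : lineZ.Adj i j ↔ j = i - 1 ∨ j = i + 1 := by
      have h2 := Set.ext_iff.1 (lineZ_nbr i) j
      rw [mem_neighborSet, mem_coe, mem_insert, mem_singleton] at h2
      exact h2
    simp only [mem_neighborFinset, Prod.mk.injEq, h1]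
    constructor
    · rintro (⟨h, rfl⟩ | ⟨h | h, rfl⟩)
      · exact Or.inr ⟨w, h, rfl⟩
      · exact Or.inl (Or.inl ⟨rfl, h⟩)
      · exact Or.inl (Or.inr ⟨rfl, h⟩)
    · rintro ((⟨h, h'⟩ | ⟨h, h'⟩) | ⟨z, hz, h⟩)
      · exact Or.inr ⟨Or.inl h', h.symm⟩
      · exact Or.inr ⟨Or.inr h', h.symm⟩
      · have h2 : z = w := congrArg Prod.fst h
        have h3 : i = j := congrArg Prod.snd h
        exact Or.inl ⟨h2 ▸ hz, h3⟩
  · rw [card_union_of_disjoint hdisj, hA, hB, card_pair hne, card_map, card_neighborFinset_eq_degree]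
    ring
  · rw [sum_union hdisj, hA, hB, sum_pair hne, sum_map]
    rfl

/-- the criterion used -/
theorem labeling_iff {V : Type*} (G : SimpleGraph V) [G.LocallyFinite] (φ : V × ℤ → ℤ) :
    IsHarmonicLabeling (G □ lineZ) φ ↔ Function.Bijective φ ∧ ∀ (w : V) (i : ℤ),
      ((G.degree w : ℤ) + 2) * φ (w, i) =
        φ (w, i - 1) + φ (w, i + 1) + ∑ z ∈ G.neighborFinset w, φ (z, i) := by
  unfold IsHarmonicLabeling
  refine and_congr_right fun _ => ?_
  constructor
  · intro h w i
    obtain ⟨S, hS, hc, hsum⟩ := prod_nbr G w i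
    obtain ⟨-, -, h3⟩ := h (w, i)
    rw [hS, Set.ncard_coe_finset, hc, finsum_mem_coe_finset, hsum] at h3
    have h4 : ((G.degree w : ℚ) + 2) ≠ 0 := by positivity
    push_cast at h3
    rw [one_div, inv_mul_eq_div, eq_div_iff h4] at h3
    have h5 : (((((G.degree w : ℤ) + 2) * φ (w, i) : ℤ)) : ℚ) =
        ((φ (w, i - 1) + φ (w, i + 1) + ∑ z ∈ G.neighborFinset w, φ (z, i) : ℤ) : ℚ) := by
      push_cast
      linarith
    exact_mod_cast h5
  · rintro h ⟨w, i⟩
    obtain ⟨S, hS, hc, hsum⟩ := prod_nbr G w i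
    rw [hS, Set.ncard_coe_finset, hc, finsum_mem_coe_finset, hsum]
    refine ⟨Finset.finite_toSet _, by omega, ?_⟩
    have h4 : ((G.degree w : ℚ) + 2) ≠ 0 := by positivity
    push_cast
    rw [one_div, inv_mul_eq_div, eq_div_iff h4]
    have h5 := congrArg (fun z : ℤ => (z : ℚ)) (h w i)
    push_cast at h5
    linarith

/-- **Disjoint unions.** -/
theorem labeling_union {V : Type*} [Countable V] [Nonempty V] (G : SimpleGraph V)
    [G.LocallyFinite]
    (h : ∀ c : G.ConnectedComponent, ∃ φ : c.supp × ℤ → ℤ,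
      IsHarmonicLabeling (G.induce c.supp □ lineZ) φ) :
    ∃ φ : V × ℤ → ℤ, IsHarmonicLabeling (G □ lineZ) φ := by
  classical
  choose ψ hψ using h
  have hc : Countable G.ConnectedComponent := by
    unfold SimpleGraph.ConnectedComponent
    infer_instance
  have hne : Nonempty G.ConnectedComponent := ‹Nonempty V›.map G.connectedComponentMk
  obtain ⟨a, b, hb, hab⟩ := ap_countable G.ConnectedComponent
  have hlf : ∀ c : G.ConnectedComponent, ∀ x : c.supp, ((G.induce c.supp).neighborSet x).Finite := by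
    intro c x
    have h1 : (G.neighborSet x.1).Finite := (G.neighborSet x.1).toFinite
    refine (h1.preimage (f := Subtype.val) Subtype.val_injective.injOn).subset fun y hy => ?_
    exact hy
  let inst : ∀ c : G.ConnectedComponent, (G.induce c.supp).LocallyFinite := fun c x =>
    (hlf c x).fintype
  have hψ' := fun c => (labeling_iff (G.induce c.supp) (ψ c)).1 (hψ c)
  let φ : V × ℤ → ℤ := fun x => a (G.connectedComponentMk x.1) + b (G.connectedComponentMk x.1) *
    ψ (G.connectedComponentMk x.1) (⟨x.1, rfl⟩, x.2)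
  have hφ : ∀ (c : G.ConnectedComponent) (v : V) (hv : v ∈ c.supp) (i : ℤ),
      φ (v, i) = a c + b c * ψ c (⟨v, hv⟩, i) := by
    intro c v hv i
    have h1 : G.connectedComponentMk v = c := hv
    subst h1
    rfl
  refine ⟨φ, (labeling_iff G φ).2 ⟨⟨?_, ?_⟩, ?_⟩⟩
  · rintro ⟨v, i⟩ ⟨v', i'⟩ heq
    have h1 := hφ (G.connectedComponentMk v) v rfl i
    have h2 := hφ (G.connectedComponentMk v') v' rfl i'
    rw [h1, h2] at heq
    have h3 : ((G.connectedComponentMk v, ψ (G.connectedComponentMk v) (⟨v, rfl⟩, i)) :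
        G.ConnectedComponent × ℤ) =
        (G.connectedComponentMk v', ψ (G.connectedComponentMk v') (⟨v', rfl⟩, i')) := hab.1 heq
    have h4 : G.connectedComponentMk v' = G.connectedComponentMk v := (congrArg Prod.fst h3).symm
    have h5 := hφ (G.connectedComponentMk v) v' h4 i'
    rw [← h2, h5] at heq
    have h6 : ψ (G.connectedComponentMk v) (⟨v, rfl⟩, i) =
        ψ (G.connectedComponentMk v) (⟨v', h4⟩, i') :=
      mul_left_cancel₀ (hb (G.connectedComponentMk v)) (by linarith)
    have h7 := (hψ' (G.connectedComponentMk v)).1.1 h6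
    have h8 : v = v' := congrArg (fun y => (y.1 : V)) h7
    have h9 : i = i' := congrArg Prod.snd h7
    rw [h8, h9]
  · intro x
    obtain ⟨⟨c, k⟩, hk⟩ := hab.2 x
    obtain ⟨⟨⟨v, hv⟩, i⟩, hi⟩ := (hψ' c).1.2 k
    refine ⟨(v, i), ?_⟩
    rw [hφ c v hv i, hi]
    exact hk
  · intro w i
    set c := G.connectedComponentMk w with hcdef
    have hw : w ∈ c.supp := rfl
    have h1 := (hψ' c).2 ⟨w, hw⟩ i
    have hmem : ∀ z ∈ G.neighborFinset w, z ∈ c.supp := by
      intro z hz
      rw [mem_neighborFinset] at hz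
      exact (ConnectedComponent.connectedComponentMk_eq_of_adj hz).symm
    have hmap : ((G.induce c.supp).neighborFinset ⟨w, hw⟩).map (Function.Embedding.subtype _) =
        G.neighborFinset w := by
      ext z
      rw [mem_map, mem_neighborFinset]
      constructor
      · rintro ⟨y, hy, rfl⟩
        rw [mem_neighborFinset] at hy
        exact hy
      · intro hz
        refine ⟨⟨z, hmem z (by rw [mem_neighborFinset]; exact hz)⟩, ?_, rfl⟩
        rw [mem_neighborFinset]
        exact hz
    have hdeg : (G.induce c.supp).degree ⟨w, hw⟩ = G.degree w := by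
      rw [← card_neighborFinset_eq_degree, ← card_neighborFinset_eq_degree, ← hmap, card_map]
    have hsum : ∑ z ∈ G.neighborFinset w, φ (z, i) =
        ∑ z ∈ (G.induce c.supp).neighborFinset ⟨w, hw⟩, (a c + b c * ψ c (z, i)) := by
      rw [← hmap, sum_map]
      exact sum_congr rfl fun z _ => hφ c z.1 z.2 i
    rw [hsum, sum_add_distrib, sum_const, card_neighborFinset_eq_degree, hdeg, ← mul_sum,
      hφ c w hw, hφ c w hw, hφ c w hw, nsmul_eq_mul]
    rw [hdeg] at h1
    linear_combination b c * h1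

end Pool.Agent.W5h88.HL
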