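import Mathlib

set_option autoImplicit false

/-!
# The Laplacian on finitely supported functions
-/

namespace Pool.Agent.W5h88.HL

open Finset

variable {V : Type*} (H : SimpleGraph V) [H.LocallyFinite]

/-- pairing of a function with a finitely supported function -/
noncomputable def pr (T : V → ℤ) (f : V →₀ ℤ) : ℤ := f.sum fun x c => c * T x

omit H in
theorem pr_add (T : V → ℤ) (f g : V →₀ ℤ) : pr T (f + g) = pr T f + pr T g := by
  classical
  unfold pr
  exact Finsupp.sum_add_index' (fun _ => by simp) fun _ _ _ => by ring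

omit H in
theorem pr_smul (T : V → ℤ) (c : ℤ) (f : V →₀ ℤ) : pr T (c • f) = c * pr T f := by
  unfold pr
  rw [Finsupp.sum_smul_index' (fun _ => by simp), Finsupp.sum, Finsupp.sum, mul_sum]
  refine sum_congr rfl fun x _ => ?_
  simp only [smul_eq_mul]
  ring

omit H in
theorem pr_zero (T : V → ℤ) : pr T 0 = 0 := by simp [pr]

omit H in
theorem pr_sub (T : V → ℤ) (f g : V →₀ ℤ) : pr T (f - g) = pr T f - pr T g := by
  have h := pr_smul T (-1) g
  rw [neg_one_smul] at h
  rw [sub_eq_add_neg, pr_add, h]
  ring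

omit H in
theorem pr_sum {ι : Type*} (T : V → ℤ) (s : Finset ι) (f : ι → V →₀ ℤ) :
    pr T (∑ z ∈ s, f z) = ∑ z ∈ s, pr T (f z) := by
  classical
  induction s using Finset.induction_on with
  | empty => simp [pr_zero]
  | insert a s ha ih => rw [sum_insert ha, sum_insert ha, pr_add, ih]

omit H in
theorem pr_single (T : V → ℤ) (x : V) (a : ℤ) : pr T (Finsupp.single x a) = a * T x := by
  unfold pr
  rw [Finsupp.sum_single_index (by simp)]

/-- the Laplacian of the unit vector at `x` -/
noncomputable def lapS (x : V) : V →₀ ℤ :=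
  Finsupp.single x (H.degree x : ℤ) - ∑ z ∈ H.neighborFinset x, Finsupp.single z 1

/-- the Laplacian -/
noncomputable def lapF (f : V →₀ ℤ) : V →₀ ℤ := ∑ x ∈ f.support, f x • lapS H x

theorem pr_lap (T : V → ℤ) (f : V →₀ ℤ) : pr T (lapF H f) =
    pr (fun x => (H.degree x : ℤ) * T x - ∑ z ∈ H.neighborFinset x, T z) f := by
  unfold lapF
  rw [pr_sum]
  conv_rhs => unfold pr Finsupp.sum
  refine sum_congr rfl fun x _ => ?_
  rw [pr_smul, lapS, pr_sub, pr_single, pr_sum]
  congr 2
  refine sum_congr rfl fun z _ => ?_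
  rw [pr_single, one_mul]

omit H in
theorem pr_delta [DecidableEq V] (x : V) (f : V →₀ ℤ) :
    pr (fun y => if y = x then 1 else 0) f = f x := by
  unfold pr Finsupp.sum
  by_cases hx : x ∈ f.support
  · rw [sum_eq_single x (fun y _ hy => by simp [hy]) (fun h => absurd hx h)]
    simp
  · rw [sum_eq_zero fun y hy => by
      have : y ≠ x := by rintro rfl; exact hx hy
      simp [this]]
    exact (Finsupp.notMem_support_iff.1 hx).symm

theorem lapF_apply (f : V →₀ ℤ) (x : V) :
    lapF H f x = (H.degree x : ℤ) * f x - ∑ z ∈ H.neighborFinset x, f z := by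
  classical
  rw [← pr_delta x (lapF H f), pr_lap]
  have h1 : (fun y => (H.degree y : ℤ) * (if y = x then 1 else 0) -
      ∑ z ∈ H.neighborFinset y, (if z = x then (1 : ℤ) else 0)) =
      fun y => (if y = x then (H.degree x : ℤ) else 0) - if H.Adj x y then 1 else 0 := by
    funext y
    congr 1
    · by_cases h : y = x
      · subst h
        simp
      · simp [h]
    · rw [sum_ite_eq']
      simp [SimpleGraph.adj_comm]
  rw [h1]
  unfold pr Finsupp.sum
  simp only [mul_sub, sum_sub_distrib]
  congr 1
  · by_cases hx : x ∈ f.support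
    · rw [sum_eq_single x (fun y _ hy => by simp [hy]) (fun h => absurd hx h)]
      simp [mul_comm]
    · rw [sum_eq_zero fun y hy => by
        have : y ≠ x := by rintro rfl; exact hx hy
        simp [this]]
      rw [Finsupp.notMem_support_iff.1 hx, mul_zero]
  · have h2 : ∑ y ∈ f.support, f y * (if H.Adj x y then 1 else 0) =
        ∑ y ∈ f.support ∩ H.neighborFinset x, f y := by
      rw [← filter_mem_eq_inter, sum_filter]
      refine sum_congr rfl fun y _ => ?_
      simp
    rw [h2]
    refine sum_subset inter_subset_right fun y hy hy' => ?_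
    by_contra h
    exact hy' (mem_inter.2 ⟨Finsupp.mem_support_iff.2 h, hy⟩)

/-- symmetry of the Laplacian -/
theorem lap_symm (f g : V →₀ ℤ) : pr f (lapF H g) = pr (lapF H f) g := by
  rw [pr_lap]
  congr 1
  funext x
  rw [lapF_apply]

omit H in
theorem pr_self_nonneg (f : V →₀ ℤ) : 0 ≤ pr f f := by
  unfold pr Finsupp.sum
  exact sum_nonneg fun x _ => mul_self_nonneg _

/-- positivity of the Laplacian -/
theorem lap_nonneg (f : V →₀ ℤ) : 0 ≤ pr f (lapF H f) := by
  classical
  rw [lap_symm]
  unfold pr Finsupp.sum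
  set S := f.support with hS
  set a : V → V → ℤ := fun x z => if H.Adj x z then 1 else 0 with ha
  have ha0 : ∀ x z, 0 ≤ a x z := fun x z => by rw [ha]; simp only; split_ifs <;> norm_num
  have hsym : ∀ x z, a x z = a z x := fun x z => by rw [ha]; simp only [SimpleGraph.adj_comm]
  have h1 : ∀ x ∈ S, ∑ z ∈ S, a x z * (f x * f x - f x * f z) ≤ f x * lapF H f x := by
    intro x _
    rw [lapF_apply]
    have h2 : ∑ z ∈ H.neighborFinset x, f z = ∑ z ∈ S, a x z * f z := by
      have h3 : ∑ z ∈ S, a x z * f z = ∑ z ∈ S ∩ H.neighborFinset x, f z := by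
        rw [← filter_mem_eq_inter, sum_filter]
        refine sum_congr rfl fun y _ => ?_
        rw [ha]
        simp
      rw [h3]
      symm
      refine sum_subset inter_subset_right fun y hy hy' => ?_
      by_contra h
      exact hy' (mem_inter.2 ⟨Finsupp.mem_support_iff.2 h, hy⟩)
    have h4 : ∑ z ∈ S, a x z ≤ (H.degree x : ℤ) := by
      have h5 : ∑ z ∈ S, a x z = ((S ∩ H.neighborFinset x).card : ℤ) := by
        rw [← filter_mem_eq_inter, card_filter]
        push_cast
        refine sum_congr rfl fun y _ => ?_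
        rw [ha]
        simp
      rw [h5, ← SimpleGraph.card_neighborFinset_eq_degree]
      exact_mod_cast card_le_card inter_subset_right
    have h6 : ∑ z ∈ S, a x z * (f x * f x - f x * f z) =
        (∑ z ∈ S, a x z) * (f x * f x) - f x * ∑ z ∈ S, a x z * f z := by
      rw [sum_mul, mul_sum, ← sum_sub_distrib]
      refine sum_congr rfl fun z _ => ?_
      ring
    rw [h6, h2]
    have h7 : (∑ z ∈ S, a x z) * (f x * f x) ≤ (H.degree x : ℤ) * (f x * f x) :=
      mul_le_mul_of_nonneg_right h4 (mul_self_nonneg _)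
    linarith
  refine le_trans ?_ (sum_le_sum h1)
  have h8 : 2 * ∑ x ∈ S, ∑ z ∈ S, a x z * (f x * f x - f x * f z) =
      ∑ x ∈ S, ∑ z ∈ S, a x z * ((f x - f z) * (f x - f z)) := by
    have h9 : ∑ x ∈ S, ∑ z ∈ S, a x z * (f x * f x - f x * f z) =
        ∑ x ∈ S, ∑ z ∈ S, a x z * (f z * f z - f z * f x) := by
      rw [sum_comm]
      refine sum_congr rfl fun x _ => sum_congr rfl fun z _ => ?_
      rw [hsym]
    rw [two_mul]
    conv_lhs =>
      rhs
      rw [h9]
    rw [← sum_add_distrib]
    refine sum_congr rfl fun x _ => ?_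
    rw [← sum_add_distrib]
    refine sum_congr rfl fun z _ => ?_
    ring
  have h10 : 0 ≤ ∑ x ∈ S, ∑ z ∈ S, a x z * ((f x - f z) * (f x - f z)) :=
    sum_nonneg fun x _ => sum_nonneg fun z _ => mul_nonneg (ha0 x z) (mul_self_nonneg _)
  linarith

theorem moments (e : V →₀ ℤ) (a b : ℕ) :
    pr e ((lapF H)^[a + b] e) = pr ((lapF H)^[a] e) ((lapF H)^[b] e) := by
  induction a generalizing b with
  | zero => simp
  | succ a ih =>
    have h1 : a + 1 + b = a + (b + 1) := by ring
    rw [h1, ih (b + 1), Function.iterate_succ_apply', Function.iterate_succ_apply', lap_symm]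

theorem moments_nonneg (e : V →₀ ℤ) (j : ℕ) : 0 ≤ pr e ((lapF H)^[j] e) := by
  rcases Nat.even_or_odd' j with ⟨k, rfl | rfl⟩
  · have h := moments H e k k
    rw [two_mul, h]
    exact pr_self_nonneg _
  · have h := moments H e k (k + 1)
    rw [show 2 * k + 1 = k + (k + 1) by ring, h, Function.iterate_succ_apply']
    exact lap_nonneg H _

end Pool.Agent.W5h88.HL
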