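import Pool.Agent.W5h88.HL.Form

set_option autoImplicit false

/-!
# The lattices `ℤ ^ d`, `d ≥ 2`, are in the class
-/

namespace Pool.Agent.W5h88.HL

open Finset

/-- the `ℓ¹` distance of two points of `ℤ ^ d` -/
def nrm {d : ℕ} (x y : Fin d → ℤ) : ℕ := ∑ j, (x j - y j).natAbs

/-- the nearest neighbour graph of the lattice `ℤ ^ d` -/
def lattice (d : ℕ) : SimpleGraph (Fin d → ℤ) where
  Adj x y := nrm x y = 1
  symm := ⟨fun x y h => by
    have h' : nrm x y = 1 := h
    show nrm y x = 1
    rw [← h']
    unfold nrm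
    exact sum_congr rfl fun j _ => by omega⟩
  loopless := ⟨fun x h => by
    have h' : nrm x x = 1 := h
    simp [nrm] at h'⟩

theorem nrm_self {d : ℕ} (x : Fin d → ℤ) : nrm x x = 0 := by simp [nrm]

theorem nrm_triangle {d : ℕ} (x y z : Fin d → ℤ) : nrm x z ≤ nrm x y + nrm y z := by
  unfold nrm
  rw [← sum_add_distrib]
  exact sum_le_sum fun j _ => by omega

theorem nrm_eq_zero {d : ℕ} {x y : Fin d → ℤ} (h : nrm x y = 0) : x = y := by
  funext j
  unfold nrm at h
  rw [sum_eq_zero_iff] at h
  have := h j (mem_univ _)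
  omega

theorem nrm_le_length {d : ℕ} {x y : Fin d → ℤ} (p : (lattice d).Walk x y) : nrm x y ≤ p.length := by
  induction p with
  | nil => simp [nrm_self]
  | @cons u v w h q ih =>
    rw [SimpleGraph.Walk.length_cons]
    have h1 : nrm u v = 1 := h
    have h2 := nrm_triangle u v w
    omega

theorem exists_walk {d : ℕ} : ∀ (n : ℕ) (x y : Fin d → ℤ), nrm x y = n →
    ∃ p : (lattice d).Walk x y, p.length = n
  | 0, x, y, h => by
    have := nrm_eq_zero h
    subst this
    exact ⟨SimpleGraph.Walk.nil, rfl⟩
  | n + 1, x, y, h => by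
    classical
    have hex : ∃ j, x j ≠ y j := by
      by_contra hc
      push Not at hc
      rw [funext hc, nrm_self] at h
      omega
    obtain ⟨j, hj⟩ := hex
    set s : ℤ := if x j < y j then 1 else -1 with hs
    set z : Fin d → ℤ := Function.update x j (x j + s) with hz
    have h1 : nrm x z = 1 := by
      unfold nrm
      rw [sum_eq_single j]
      · rw [hz, Function.update_self, hs]
        split_ifs <;> omega
      · intro k _ hk
        rw [hz, Function.update_of_ne hk]
        omega
      · simp
    have h2 : nrm z y = n := by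
      unfold nrm at h ⊢
      rw [← add_sum_erase _ _ (mem_univ j)] at h ⊢
      have h3 : ∑ k ∈ univ.erase j, (z k - y k).natAbs = ∑ k ∈ univ.erase j, (x k - y k).natAbs := by
        refine sum_congr rfl fun k hk => ?_
        rw [hz, Function.update_of_ne (ne_of_mem_erase hk)]
      rw [h3]
      have h4 : (z j - y j).natAbs + 1 = (x j - y j).natAbs := by
        rw [hz, Function.update_self, hs]
        split_ifs <;> omega
      omega
    obtain ⟨p, hp⟩ := exists_walk n z y h2
    have hadj : (lattice d).Adj x z := h1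
    exact ⟨SimpleGraph.Walk.cons hadj p, by rw [SimpleGraph.Walk.length_cons, hp]⟩

theorem lattice_connected (d : ℕ) : (lattice d).Connected := by
  have : Nonempty (Fin d → ℤ) := ⟨fun _ => 0⟩
  refine ⟨fun x y => ?_⟩
  obtain ⟨p, -⟩ := exists_walk _ x y rfl
  exact ⟨p⟩

theorem lattice_dist {d : ℕ} (x y : Fin d → ℤ) : (lattice d).dist x y = nrm x y := by
  obtain ⟨p, hp⟩ := exists_walk _ x y rfl
  obtain ⟨q, hq⟩ := (lattice_connected d).exists_walk_length_eq_dist x y
  have h1 := SimpleGraph.dist_le p
  have h2 := nrm_le_length q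
  omega

theorem lattice_nbr_finite {d : ℕ} (x : Fin d → ℤ) : ((lattice d).neighborSet x).Finite := by
  refine (Set.finite_Icc (fun j => x j - 1) (fun j => x j + 1)).subset fun y hy => ?_
  have h : nrm x y = 1 := hy
  unfold nrm at h
  have h1 : ∀ j, (x j - y j).natAbs ≤ 1 := fun j => by
    rw [← h]
    exact single_le_sum (f := fun j => (x j - y j).natAbs) (fun _ _ => Nat.zero_le _) (mem_univ j)
  refine ⟨fun j => ?_, fun j => ?_⟩
  · have := h1 j
    simp only
    omega
  · have := h1 j
    simp only
    omega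

noncomputable instance (d : ℕ) : (lattice d).LocallyFinite := fun x =>
  (lattice_nbr_finite x).fintype

/-- many vertices of the sphere of `w` outside of the ball of `w'` -/
theorem lattice_many {d : ℕ} (hd : 2 ≤ d) {w w' : Fin d → ℤ} (hw : w ≠ w') (r : ℕ) :
    ∃ f : ℕ → (Fin d → ℤ), Function.Injective f ∧ ∀ a ≤ r, nrm w (f a) = r ∧ r < nrm w' (f a) := by
  classical
  obtain ⟨j, hj⟩ := Function.ne_iff.1 hw
  have : Nontrivial (Fin d) := Fin.nontrivial_iff_two_le.2 hd
  obtain ⟨k, hk⟩ := exists_ne j
  set s : ℤ := if w' j < w j then 1 else -1 with hs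
  set t : ℤ := if w' k ≤ w k then 1 else -1 with ht
  have hs' : s = 1 ∨ s = -1 := by rw [hs]; split_ifs <;> simp
  have ht' : t = 1 ∨ t = -1 := by rw [ht]; split_ifs <;> simp
  set f : ℕ → (Fin d → ℤ) := fun a => Function.update (Function.update w j (w j + s * a)) k
    (w k + t * ((r : ℤ) - a)) with hf
  have fj : ∀ a, f a j = w j + s * a := fun a => by
    rw [hf]
    simp only
    rw [Function.update_of_ne hk.symm, Function.update_self]
  have fk : ∀ a, f a k = w k + t * ((r : ℤ) - a) := fun a => by
    rw [hf]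
    simp only
    rw [Function.update_self]
  have fl : ∀ a l, l ≠ j → l ≠ k → f a l = w l := fun a l h1 h2 => by
    rw [hf]
    simp only
    rw [Function.update_of_ne h2, Function.update_of_ne h1]
  refine ⟨f, fun a b hab => ?_, fun a ha => ⟨?_, ?_⟩⟩
  · have h1 := congrFun hab j
    rw [fj, fj] at h1
    rcases hs' with h | h <;> rw [h] at h1 <;> omega
  · unfold nrm
    rw [sum_eq_add j k hk.symm (fun l _ hl => by rw [fl a l hl.1 hl.2]; simp) (by simp) (by simp),
      fj, fk]
    rcases hs' with h | h <;> rcases ht' with h' | h' <;> rw [h, h'] <;> omega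
  · unfold nrm
    have h1 : ∑ l ∈ ({j, k} : Finset (Fin d)), (w' l - f a l).natAbs ≤ ∑ l, (w' l - f a l).natAbs :=
      sum_le_sum_of_subset (subset_univ _)
    rw [sum_pair hk.symm, fj, fk] at h1
    have h2 : a + 1 ≤ (w' j - (w j + s * a)).natAbs := by
      rw [hs]
      split_ifs <;> omega
    have h3 : r - a ≤ (w' k - (w k + t * ((r : ℤ) - a))).natAbs := by
      rw [ht]
      split_ifs <;> omega
    omega

theorem spread_lattice {d : ℕ} (hd : 2 ≤ d) : Spread (lattice d) := by
  classical
  refine ⟨fun w w' hw r => ?_, fun N => ⟨N, fun w w' hw r hr => ?_⟩⟩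
  · obtain ⟨f, -, h⟩ := lattice_many hd hw r
    refine ⟨f 0, ?_⟩
    rw [lattice_dist, lattice_dist]
    exact h 0 (Nat.zero_le _)
  · obtain ⟨f, hinj, h⟩ := lattice_many hd hw r
    have h1 : (((range (r + 1)).image f : Finset (Fin d → ℤ)) : Set (Fin d → ℤ)) ⊆
        {u | (lattice d).dist w u = r ∧ r < (lattice d).dist w' u} := by
      intro u hu
      rw [mem_coe, mem_image] at hu
      obtain ⟨a, ha, rfl⟩ := hu
      rw [Set.mem_ofPred_eq, lattice_dist, lattice_dist]
      exact h a (by rw [mem_range] at ha; omega)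
    have h2 : {u | (lattice d).dist w u = r ∧ r < (lattice d).dist w' u}.Finite :=
      (ball_finite (lattice d) (lattice_connected d) r w).subset fun u hu => hu.1.le
    have h3 := Set.ncard_le_ncard h1 h2
    rw [Set.ncard_coe_finset, card_image_of_injective _ hinj, card_range] at h3
    omega

end Pool.Agent.W5h88.HL
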