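import Pool.Agent.W5h88.HL.Greedy

set_option autoImplicit false

/-!
# The limit of the greedy construction
-/

namespace Pool.Agent.W5h88.HL

open Finset

variable {V : Type*} (G : SimpleGraph V) [G.LocallyFinite]

/-- the states of the construction -/
structure State (hG : G.Connected) where
  /-- the finitely many variables whose values are fixed -/
  F : Finset (V × Bool)
  /-- the values -/
  p : V × Bool → ℤ
  /-- no collisions -/
  good : Good G hG F p

theorem good_empty (hG : G.Connected) (hS : Spread G) [Nontrivial V] (p : V × Bool → ℤ) :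
    Good G hG ∅ p := by
  intro w w' i i' hne hsup
  obtain ⟨R, hR⟩ := height_bound G hG hS 0
  obtain ⟨hi, hi'⟩ := hR ∅ (by simp) w w' i i' hne hsup
  obtain ⟨⟨x, hx, -⟩, -⟩ := location G hG hS hne hsup hi hi'
  simp at hx

/-- the task `c` is done in the state `s` -/
def Done (hG : G.Connected) (s : State G hG) : (V × Bool) ⊕ ℤ → Prop
  | Sum.inl y => y ∈ s.F
  | Sum.inr m => ∃ (w : V) (i : ℤ), (K G hG w i).support ⊆ s.F ∧ ev s.p (K G hG w i) = m

theorem step (hG : G.Connected) (hS : Spread G) [Nontrivial V] (s : State G hG)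
    (c : (V × Bool) ⊕ ℤ) : ∃ s' : State G hG, s.F ⊆ s'.F ∧ (∀ x ∈ s.F, s'.p x = s.p x) ∧
      Done G hG s' c := by
  classical
  rcases c with y | m
  · by_cases hy : y ∈ s.F
    · exact ⟨s, subset_rfl, fun _ _ => rfl, hy⟩
    · obtain ⟨t, ht⟩ := extend_var G hG hS s.good y
      refine ⟨⟨_, _, ht⟩, subset_insert _ _, fun x hx => ?_, mem_insert_self _ _⟩
      simp only
      rw [Function.update_of_ne]
      rintro rfl
      exact hy hx
  · obtain ⟨F', p', hgood, hF, hp, hm⟩ := extend_val G hG hS s.good m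
    exact ⟨⟨F', p', hgood⟩, hF, hp, hm⟩

/-- **The main theorem**, in terms of functions of two variables. -/
theorem main (hG : G.Connected) (hS : Spread G) [Nontrivial V] [Countable V] :
    ∃ φ : V × ℤ → ℤ, Function.Bijective φ ∧ ∀ (w : V) (i : ℤ),
      ((G.degree w : ℤ) + 2) * φ (w, i) =
        φ (w, i - 1) + φ (w, i + 1) + ∑ z ∈ G.neighborFinset w, φ (z, i) := by
  classical
  obtain ⟨e, he⟩ := exists_surjective_nat ((V × Bool) ⊕ ℤ)
  choose nxt h1 h2 h3 using step G hG hS
  let st : ℕ → State G hG := fun n =>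
    Nat.rec ⟨∅, fun _ => 0, good_empty G hG hS _⟩ (fun n s => nxt s (e n)) n
  have hst : ∀ n, st (n + 1) = nxt (st n) (e n) := fun n => rfl
  have hmono : ∀ n k, n ≤ k → (st n).F ⊆ (st k).F ∧ ∀ x ∈ (st n).F, (st k).p x = (st n).p x := by
    intro n k hnk
    induction k, hnk using Nat.le_induction with
    | base => exact ⟨subset_rfl, fun _ _ => rfl⟩
    | succ k hk ih =>
      rw [hst]
      refine ⟨ih.1.trans (h1 _ _), fun x hx => ?_⟩
      rw [h2 _ _ x (ih.1 hx)]
      exact ih.2 x hx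
  have hex : ∀ x : V × Bool, ∃ n, x ∈ (st n).F := by
    intro x
    obtain ⟨n, hn⟩ := he (Sum.inl x)
    refine ⟨n + 1, ?_⟩
    rw [hst, hn]
    exact h3 (st n) (Sum.inl x)
  choose N hN using hex
  let q : V × Bool → ℤ := fun x => (st (N x)).p x
  have hq : ∀ n, ∀ x ∈ (st n).F, (st n).p x = q x := by
    intro n x hx
    rcases le_total n (N x) with h | h
    · exact ((hmono _ _ h).2 x hx).symm
    · exact (hmono _ _ h).2 x (hN x)
  have hsupp : ∀ S : Finset (V × Bool), ∃ n, S ⊆ (st n).F := by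
    intro S
    refine ⟨∑ x ∈ S, N x, fun x hx => ?_⟩
    have h4 : N x ≤ ∑ x ∈ S, N x := single_le_sum (f := N) (fun _ _ => Nat.zero_le _) hx
    exact (hmono _ _ h4).1 (hN x)
  refine ⟨fun y => ev q (K G hG y.1 y.2), ⟨?_, ?_⟩, ?_⟩
  · rintro ⟨w, i⟩ ⟨w', i'⟩ heq
    by_contra hne
    obtain ⟨n, hn⟩ := hsupp (K G hG w i - K G hG w' i').support
    have h4 := (st n).good w w' i i' hne hn
    apply h4
    rw [ev_congr (q := q) (fun x hx => hq n x (hn hx)), ev_sub]
    simp only at heq
    rw [heq, sub_self]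
  · intro m
    obtain ⟨n, hn⟩ := he (Sum.inr m)
    obtain ⟨w, i, h4, h5⟩ : Done G hG (st (n + 1)) (Sum.inr m) := by
      rw [hst, hn]
      exact h3 (st n) (Sum.inr m)
    refine ⟨(w, i), ?_⟩
    simp only
    rw [← h5]
    exact (ev_congr fun x hx => hq (n + 1) x (h4 hx)).symm
  · intro w i
    exact ev_harm G hG q w i

end Pool.Agent.W5h88.HL
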