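import Pool.Agent.W5h88.HL.Union2
import Pool.Agent.W5h88.HL.Tree

set_option autoImplicit false

/-!
# The growth condition for all products `H × P` with `P` infinite, bipartite and growing
-/

namespace Pool.Agent.W5h88.HL

open Finset SimpleGraph

variable {V W : Type*} (H : SimpleGraph V) [H.LocallyFinite] (P : SimpleGraph W) [P.LocallyFinite]

theorem prod2_sum (f : V × W → ℤ) (h : V) (a : W) :
    ∑ z ∈ (H □ P).neighborFinset (h, a), f z =
      ∑ b ∈ P.neighborFinset a, f (h, b) + ∑ y ∈ H.neighborFinset h, f (y, a) := by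
  rw [neighborFinset_boxProd, sum_disjUnion, sum_product, sum_product, sum_singleton, add_comm]
  congr 1
  refine sum_congr rfl fun y _ => ?_
  rw [sum_singleton]

theorem prod2_deg (h : V) (a : W) : (H □ P).degree (h, a) = H.degree h + P.degree a :=
  degree_boxProd _

/-- the forms of `P` are the projections of the forms of `H □ P` -/
theorem ev_proj (hG : (H □ P).Connected) (hP : P.Connected) (p : W × Bool → ℤ) (h : V) (a : W)
    (i : ℤ) : ev (fun x => p (x.1.2, x.2)) (K (H □ P) hG (h, a) i) = ev p (K P hP a i) := by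
  have hh : Harm (H □ P) fun w i => ev p (K P hP w.2 i) := by
    rintro ⟨h, a⟩ i
    rw [prod2_sum H P (fun z => ev p (K P hP z.2 i)), prod2_deg]
    have h1 := ev_harm P hP p a i
    simp only [sum_const, card_neighborFinset_eq_degree, nsmul_eq_mul]
    push_cast
    linarith
  have h1 := harm_eq (H □ P) hG hh i (h, a)
  rw [h1]
  congr 1
  funext x
  obtain ⟨⟨u, b⟩, c⟩ := x
  cases c
  · simp only [data, Bool.false_eq_true, if_false]
    rw [K_zero_false, ev_single, one_mul]
  · simp only [data, if_true]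
    rw [K_one_true, ev_single, one_mul]

/-- the third recursion: monotonicity -/
theorem rec3_mono {e : ℕ → W → ℕ → ℤ} {m : ℕ → ℤ} {b : W} (hm : ∀ j, 0 ≤ m j)
    (h0 : ∀ β j, e 0 β j = 0) (h1 : ∀ β j, e 1 β j = 0 ∨ (β = b ∧ e 1 β j = m j))
    (hrec : ∀ n β j, e (n + 2) β j = e (n + 1) β (j + 1) + ((P.degree β : ℤ) + 2) * e (n + 1) β j +
      ∑ γ ∈ P.neighborFinset β, e (n + 1) γ j - e n β j) (n : ℕ) :
    ∀ β j, 0 ≤ e n β j ∧ e n β j ≤ e (n + 1) β j := by
  induction n with
  | zero =>
    intro β j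
    rw [h0]
    have := hm j
    rcases h1 β j with h | ⟨-, h⟩ <;> rw [zero_add, h] <;> simp [this]
  | succ n ih =>
    intro β j
    have hn : ∀ β j, 0 ≤ e (n + 1) β j := fun β j => (ih β j).1.trans (ih β j).2
    refine ⟨hn β j, ?_⟩
    rw [hrec]
    have a1 := ih β j
    have a2 := hn β (j + 1)
    have a3 : 0 ≤ ∑ γ ∈ P.neighborFinset β, e (n + 1) γ j := sum_nonneg fun γ _ => hn γ j
    have a4 : 0 ≤ (P.degree β : ℤ) * e (n + 1) β j := mul_nonneg (by positivity) (hn β j)
    linarith

/-- the third recursion: positivity -/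
theorem rec3_pos {e : ℕ → W → ℕ → ℤ} {m : ℕ → ℤ} {b : W} (hP : P.Connected)
    (hm : ∀ j, 0 ≤ m j) (hm0 : 0 < m 0)
    (h0 : ∀ β j, e 0 β j = 0) (h1 : ∀ β j, e 1 β j = 0 ∨ (β = b ∧ e 1 β j = m j))
    (h1' : e 1 b 0 = m 0)
    (hrec : ∀ n β j, e (n + 2) β j = e (n + 1) β (j + 1) + ((P.degree β : ℤ) + 2) * e (n + 1) β j +
      ∑ γ ∈ P.neighborFinset β, e (n + 1) γ j - e n β j) (n : ℕ) :
    ∀ β, P.dist β b < n → 0 < e n β 0 := by
  have hmono := rec3_mono P hm h0 h1 hrec
  induction n with
  | zero => intro β h; omega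
  | succ n ih =>
    intro β hβ
    rcases Nat.lt_or_ge (P.dist β b) n with h | h
    · exact (ih β h).trans_le (hmono n β 0).2
    · rcases n with _ | n
      · have h2 : P.dist β b = 0 := by omega
        have : β = b := (hP.dist_eq_zero_iff).1 h2
        subst this
        rw [h1']
        exact hm0
      · have a1 := hmono n β 0
        have a2 := (hmono (n + 1) β 1).1
        obtain ⟨z, hz, hd⟩ := exists_step P hP (w := β) (u := b) (n := n) (by omega)
        have a3 : e (n + 1) z 0 ≤ ∑ γ ∈ P.neighborFinset β, e (n + 1) γ 0 :=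
          single_le_sum (f := fun γ => e (n + 1) γ 0) (fun γ _ => (hmono (n + 1) γ 0).1)
            ((P.mem_neighborFinset β z).2 hz)
        have a4 := ih z (by omega)
        have a5 : 0 ≤ (P.degree β : ℤ) * e (n + 1) β 0 :=
          mul_nonneg (by positivity) (hmono (n + 1) β 0).1
        rw [hrec]
        linarith

/-- the differences of two target columns -/
noncomputable def Tg (h h' : V) (b : W) (n : ℕ) (α : W) (x : V) : ℤ :=
  cf (H □ P) n (x, α) (h, b) - cf (H □ P) n (x, α) (h', b)

theorem Tg_rec (h h' : V) (b : W) (n : ℕ) (α : W) (x : V) : Tg H P h h' b (n + 2) α x =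
    ((H.degree x : ℤ) * Tg H P h h' b (n + 1) α x -
      ∑ y ∈ H.neighborFinset x, Tg H P h h' b (n + 1) α y)
      + ((P.degree α : ℤ) + 2) * Tg H P h h' b (n + 1) α x -
      ∑ β ∈ P.neighborFinset α, Tg H P h h' b (n + 1) β x - Tg H P h h' b n α x := by
  unfold Tg
  rw [cf_add_two, cf_add_two, prod2_sum H P (fun z => cf (H □ P) (n + 1) z (h, b)),
    prod2_sum H P (fun z => cf (H □ P) (n + 1) z (h', b)), prod2_deg, sum_sub_distrib,
    sum_sub_distrib]
  push_cast
  ring

theorem pr_Tg_rec (h h' : V) (b : W) (n : ℕ) (α : W) (f : V →₀ ℤ) :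
    pr (Tg H P h h' b (n + 2) α) f = pr (Tg H P h h' b (n + 1) α) (lapF H f) +
      ((P.degree α : ℤ) + 2) * pr (Tg H P h h' b (n + 1) α) f -
      ∑ β ∈ P.neighborFinset α, pr (Tg H P h h' b (n + 1) β) f - pr (Tg H P h h' b n α) f := by
  rw [pr_lap]
  unfold pr Finsupp.sum
  rw [mul_sum, sum_comm, ← sum_add_distrib, ← sum_sub_distrib, ← sum_sub_distrib]
  refine sum_congr rfl fun x _ => ?_
  beta_reduce
  rw [Tg_rec, ← mul_sum]
  ring

theorem Tg_pos (hP : P.Connected) {ε : W → ℤ} (hε1 : ∀ a, ε a * ε a = 1)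
    (hε : ∀ a b, P.Adj a b → ε b = - ε a) {h h' : V} (hne : h ≠ h') (b : W) (n : ℕ) (α : W)
    (hα : P.dist α b < n) :
    Tg H P h h' b n α h - Tg H P h h' b n α h' ≠ 0 := by
  classical
  set e : V →₀ ℤ := Finsupp.single h 1 - Finsupp.single h' 1 with he
  have hT0 : ∀ β, Tg H P h h' b 0 β = fun _ => 0 := by
    intro β
    funext x
    simp [Tg, cf_zero]
  have hT1 : ∀ β, β ≠ b → Tg H P h h' b 1 β = fun _ => 0 := by
    intro β hβ
    funext x
    unfold Tg
    rw [cf_one_ne, cf_one_ne, sub_zero]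
    · intro h2
      exact hβ (congrArg Prod.snd h2).symm
    · intro h2
      exact hβ (congrArg Prod.snd h2).symm
  have hT1' : Tg H P h h' b 1 b = e := by
    funext x
    rw [he, Finsupp.sub_apply, Finsupp.single_apply, Finsupp.single_apply]
    unfold Tg cf
    simp [Prod.ext_iff]
  have key := rec3_pos P
    (e := fun n β j => ε β * ε b * pr (Tg H P h h' b n β) ((lapF H)^[j] e))
    (m := fun j => pr e ((lapF H)^[j] e)) (b := b) hP (moments_nonneg H e) ?_ ?_ ?_ ?_ ?_ n α hα
  · simp only [Function.iterate_zero, id_eq] at key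
    rw [he, pr_sub, pr_single, pr_single, one_mul, one_mul] at key
    intro h0
    rw [h0, mul_zero] at key
    exact lt_irrefl _ key
  · simp only [Function.iterate_zero, id_eq]
    rw [he, pr_sub, pr_single, pr_single]
    simp [Finsupp.sub_apply, hne, hne.symm]
  · intro β j
    beta_reduce
    rw [hT0]
    simp [pr, Finsupp.sum]
  · intro β j
    beta_reduce
    by_cases hβ : β = b
    · right
      refine ⟨hβ, ?_⟩
      rw [hβ, hT1', hε1, one_mul]
    · left
      rw [hT1 β hβ]
      simp [pr, Finsupp.sum]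
  · beta_reduce
    rw [hT1', hε1, one_mul]
  · intro n β j
    beta_reduce
    rw [pr_Tg_rec, ← Function.iterate_succ_apply' (lapF H) j e]
    have h1 : ∑ γ ∈ P.neighborFinset β, ε γ * ε b * pr (Tg H P h h' b (n + 1) γ) ((lapF H)^[j] e) =
        - (ε β * ε b * ∑ γ ∈ P.neighborFinset β, pr (Tg H P h h' b (n + 1) γ) ((lapF H)^[j] e)) := by
      rw [mul_sum, ← sum_neg_distrib]
      refine sum_congr rfl fun γ hγ => ?_
      rw [mem_neighborFinset] at hγ
      rw [hε β γ hγ]
      ring
    rw [h1]
    ring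

/-- spheres are not empty -/
theorem exists_dist (hP : P.Connected) [Infinite W] (a : W) (k : ℕ) : ∃ b, P.dist b a = k := by
  have h1 : ∀ m : ℕ, ∀ u, P.dist u a = k + m → ∃ b, P.dist b a = k := by
    intro m
    induction m with
    | zero => intro u hu; exact ⟨u, by simpa using hu⟩
    | succ m ih =>
      intro u hu
      obtain ⟨z, -, hz⟩ := exists_step P hP (w := u) (u := a) (n := k + m) (by omega)
      exact ih z hz
  obtain ⟨v, hv⟩ := exists_far' P hP {((a, true) : W × Bool)} k
  have h2 := hv (a, true) (mem_singleton_self _)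
  simp only at h2
  exact h1 (P.dist v a - k) v (by omega)

/-- **The growth condition for products.** -/
theorem grows_prod2 (hG : (H □ P).Connected) (hP : P.Connected) [Infinite W]
    (hgr : Grows P hP) {ε : W → ℤ} (hε1 : ∀ a, ε a * ε a = 1)
    (hε : ∀ a b, P.Adj a b → ε b = - ε a) : Grows (H □ P) hG := by
  classical
  intro n
  obtain ⟨R, hR⟩ := hgr n
  refine ⟨max R n, ?_⟩
  rintro F hF ⟨h, a⟩ ⟨h', a'⟩ i i' hne hsup
  have hmem : ∀ x, (K (H □ P) hG (h, a) i - K (H □ P) hG (h', a') i') x ≠ 0 → x ∈ F := fun x hx =>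
    hsup (Finsupp.mem_support_iff.2 hx)
  by_cases hcase : a = a' ∧ i = i'
  · obtain ⟨rfl, rfl⟩ := hcase
    have hh : h ≠ h' := fun h1 => hne (by rw [h1])
    have key : i.natAbs ≤ n := by
      by_contra hc
      choose bb hbb using exists_dist P hP a
      have hinj : Function.Injective bb := fun x y hxy => by rw [← hbb x, ← hbb y, hxy]
      have hB : (F.image fun x => x.1.2).card < ((range (n + 1)).image bb).card := by
        rw [card_image_of_injective _ hinj, card_range]
        exact Nat.lt_succ_of_le (card_image_le.trans hF)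
      obtain ⟨b, hb, hb'⟩ := exists_mem_notMem_of_card_lt_card hB
      rw [mem_image] at hb
      obtain ⟨k, hk, rfl⟩ := hb
      rw [mem_range] at hk
      have hB0 : ∀ x : V,
          (K (H □ P) hG (h, a) i - K (H □ P) hG (h', a) i) ((x, bb k), true) = 0 := by
        intro x
        by_contra h1
        exact hb' (mem_image.2 ⟨_, hmem _ h1, rfl⟩)
      have h1 := hB0 h
      have h2 := hB0 h'
      rw [Finsupp.sub_apply, K_true, K_true] at h1 h2
      have hdist : P.dist a (bb k) < i.natAbs := by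
        rw [SimpleGraph.dist_comm, hbb k]
        omega
      apply Tg_pos H P hP hε1 hε hh (bb k) i.natAbs a hdist
      unfold Tg
      rcases Int.eq_nat_or_neg i with ⟨m, rfl | rfl⟩
      · rw [cc_nat, cc_nat] at h1 h2
        rw [Int.natAbs_natCast]
        linarith
      · rw [cc_neg, cc_neg, cc_nat, cc_nat] at h1 h2
        rw [Int.natAbs_neg, Int.natAbs_natCast]
        linarith
    exact ⟨by omega, by omega⟩
  · have h1 := hR (F.image fun x => (x.1.2, x.2)) (card_image_le.trans hF) a a' i i'
      (fun h => hcase ⟨congrArg Prod.fst h, congrArg Prod.snd h⟩) (fun y hy => by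
        by_contra hc
        apply Finsupp.mem_support_iff.1 hy
        rw [← ev_delta y (K P hP a i - K P hP a' i'), ev_sub,
          ← ev_proj H P hG hP _ h a i, ← ev_proj H P hG hP _ h' a' i', ← ev_sub]
        have h2 : ev (fun x : (V × W) × Bool => (fun z => if z = y then (1 : ℤ) else 0) (x.1.2, x.2))
            (K (H □ P) hG (h, a) i - K (H □ P) hG (h', a') i') =
            ev (fun _ => 0) (K (H □ P) hG (h, a) i - K (H □ P) hG (h', a') i') := by
          refine ev_congr fun x hx => ?_
          have h3 := hmem x (Finsupp.mem_support_iff.1 hx)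
          have h4 : (x.1.2, x.2) ≠ y := by
            rintro rfl
            exact hc (mem_image.2 ⟨_, h3, rfl⟩)
          simp [h4]
        rw [h2]
        simp [ev, Finsupp.sum])
    exact ⟨by omega, by omega⟩

end Pool.Agent.W5h88.HL
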