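import Pool.Agent.W5h88.HL.Union3

set_option autoImplicit false

/-!
# Products `H × P` with `P` spread, not necessarily bipartite
-/

namespace Pool.Agent.W5h88.HL

open Finset SimpleGraph

variable {V W : Type*} (H : SimpleGraph V) [H.LocallyFinite] (P : SimpleGraph W) [P.LocallyFinite]

omit [H.LocallyFinite] [P.LocallyFinite] in
theorem dist_prod (hH : H.Connected) (hP : P.Connected) (x y : V × W) :
    (H □ P).dist x y = H.dist x.1 y.1 + P.dist x.2 y.2 := by
  have h1 := edist_boxProd (G := H) (H := P) x y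
  have hG : (H □ P).Connected := hH.boxProd hP
  rw [← (hG.preconnected x y).coe_dist_eq_edist, ← (hH.preconnected x.1 y.1).coe_dist_eq_edist,
    ← (hP.preconnected x.2 y.2).coe_dist_eq_edist] at h1
  exact_mod_cast h1

/-- **The growth condition for products with a spread graph.** -/
theorem grows_prod4 (hG : (H □ P).Connected) (hH : H.Connected) (hP : P.Connected) [Nontrivial W]
    (hS : Spread P) : Grows (H □ P) hG := by
  classical
  intro n
  obtain ⟨R, hR⟩ := spread_grows P hP hS n
  obtain ⟨R', hR'⟩ := hS.2 (n + 1)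
  refine ⟨max R (R' + 1), ?_⟩
  rintro F hF ⟨h, a⟩ ⟨h', a'⟩ i i' hne hsup
  have hmem : ∀ x, (K (H □ P) hG (h, a) i - K (H □ P) hG (h', a') i') x ≠ 0 → x ∈ F := fun x hx =>
    hsup (Finsupp.mem_support_iff.2 hx)
  by_cases hcase : a = a' ∧ i = i'
  · obtain ⟨rfl, rfl⟩ := hcase
    have hh : h ≠ h' := fun h1 => hne (by rw [h1])
    have key : i.natAbs ≤ R' + 1 := by
      by_contra hc
      obtain ⟨r, hr⟩ : ∃ r, i.natAbs = r + 1 := ⟨i.natAbs - 1, by omega⟩
      obtain ⟨a'', ha''⟩ := exists_ne a
      have h1 := hR' a a'' ha''.symm r (by omega)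
      have h2 : {u | P.dist a u = r ∧ r < P.dist a'' u} ⊆
          ((F.image fun x => x.1.2 : Finset W) : Set W) := by
        rintro b ⟨hb, -⟩
        rw [mem_coe, mem_image]
        refine ⟨((h, b), true), hmem _ ?_, rfl⟩
        have hd1 : (H □ P).dist (h, a) (h, b) = r := by
          rw [dist_prod H P hH hP]
          simp [hb]
        have hd2 : (H □ P).dist (h', a) (h, b) = H.dist h' h + r := by
          rw [dist_prod H P hH hP]
          simp [hb]
        have hd3 : 0 < H.dist h' h := hH.pos_dist_of_ne hh.symm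
        rw [Finsupp.sub_apply, K_true, K_true,
          cc_far (H □ P) hG (i := i) (w := (h', a)) (u := (h, b)) (by omega), sub_zero]
        exact cc_front (H □ P) hG (by omega)
      have h3 := Set.ncard_le_ncard h2 (Finset.finite_toSet _)
      rw [Set.ncard_coe_finset] at h3
      have h4 : (F.image fun x => x.1.2).card ≤ F.card := card_image_le
      omega
    exact ⟨by omega, by omega⟩
  · have h1 := hR (F.image fun x => (x.1.2, x.2)) (card_image_le.trans hF) a a' i i'
      (fun h => hcase ⟨congrArg Prod.fst h, congrArg Prod.snd h⟩) (fun y hy => by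
        by_contra hc
        apply Finsupp.mem_support_iff.1 hy
        rw [← ev_delta y (K P hP a i - K P hP a' i'), ev_sub,
          ← ev_proj H P hG hP _ h a i, ← ev_proj H P hG hP _ h' a' i', ← ev_sub]
        have h2 : ev (fun x : (V × W) × Bool => (fun z => if z = y then (1 : ℤ) else 0) (x.1.2, x.2))
            (K (H □ P) hG (h, a) i - K (H □ P) hG (h', a') i') =
            ev (fun _ => 0) (K (H □ P) hG (h, a) i - K (H □ P) hG (h', a') i') := by
          refine ev_congr fun x hx => ?_
          have h3 := hmem x (Finsupp.mem_support_iff.1 hx)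
          have h4 : (x.1.2, x.2) ≠ y := by
            rintro rfl
            exact hc (mem_image.2 ⟨_, h3, rfl⟩)
          simp [h4]
        rw [h2]
        simp [ev, Finsupp.sum])
    exact ⟨by omega, by omega⟩

/-- the connected case -/
theorem labeling_prod4 {V W : Type*} [Countable V] [Countable W] (H : SimpleGraph V)
    [H.LocallyFinite] (P : SimpleGraph W) [P.LocallyFinite] [Nontrivial W]
    (hH : H.Connected) (hP : P.Connected) (hS : Spread P) :
    ∃ φ : (V × W) × ℤ → ℤ, IsHarmonicLabeling ((H □ P) □ lineZ) φ := by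
  have hG : (H □ P).Connected := hH.boxProd hP
  have hne : Nonempty V := hH.nonempty
  have hW : Infinite W := spread_infinite P hS
  have hinf : Infinite (V × W) := inferInstance
  obtain ⟨φ, h1, h2⟩ := main_gen (H □ P) hG (grows_prod4 H P hG hH hP hS)
  exact ⟨φ, (labeling_iff _ φ).2 ⟨h1, h2⟩⟩

/-- **All products `H × P × ℤ`.** -/
theorem labeling_all4 {V W : Type*} [Countable V] [Nonempty V] [Countable W] [Nontrivial W]
    (H : SimpleGraph V) [H.LocallyFinite] (P : SimpleGraph W) [P.LocallyFinite]
    (hP : P.Connected) (hS : Spread P) :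
    ∃ φ : (V × W) × ℤ → ℤ, IsHarmonicLabeling ((H □ P) □ lineZ) φ := by
  classical
  have hlf : ∀ c : H.ConnectedComponent, ∀ x : c.supp, ((H.induce c.supp).neighborSet x).Finite := by
    intro c x
    have h1 : (H.neighborSet x.1).Finite := (H.neighborSet x.1).toFinite
    refine (h1.preimage (f := Subtype.val) Subtype.val_injective.injOn).subset fun y hy => ?_
    exact hy
  let inst : ∀ c : H.ConnectedComponent, (H.induce c.supp).LocallyFinite := fun c x =>
    (hlf c x).fintype
  have h : ∀ c : H.ConnectedComponent, ∃ φ : (c.supp × W) × ℤ → ℤ,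
      IsHarmonicLabeling ((H.induce c.supp □ P) □ lineZ) φ := fun c =>
    labeling_prod4 (H.induce c.supp) P c.connected_toSimpleGraph hP hS
  choose ψ hψ using h
  have hc : Countable H.ConnectedComponent := by
    unfold SimpleGraph.ConnectedComponent
    infer_instance
  have hne : Nonempty H.ConnectedComponent := ‹Nonempty V›.map H.connectedComponentMk
  obtain ⟨a, b, hb, hab⟩ := ap_countable H.ConnectedComponent
  have hψ' := fun c => (labeling_iff3 (H.induce c.supp) P (ψ c)).1 (hψ c)
  let φ : (V × W) × ℤ → ℤ := fun x => a (H.connectedComponentMk x.1.1) +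
    b (H.connectedComponentMk x.1.1) * ψ (H.connectedComponentMk x.1.1) ((⟨x.1.1, rfl⟩, x.1.2), x.2)
  have hφ : ∀ (c : H.ConnectedComponent) (v : V) (hv : v ∈ c.supp) (k : W) (i : ℤ),
      φ ((v, k), i) = a c + b c * ψ c ((⟨v, hv⟩, k), i) := by
    intro c v hv k i
    have h1 : H.connectedComponentMk v = c := hv
    subst h1
    rfl
  refine ⟨φ, (labeling_iff3 H P φ).2 ⟨⟨?_, ?_⟩, ?_⟩⟩
  · rintro ⟨⟨v, k⟩, i⟩ ⟨⟨v', k'⟩, i'⟩ heq
    have h1 := hφ (H.connectedComponentMk v) v rfl k i
    have h2 := hφ (H.connectedComponentMk v') v' rfl k' i'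
    rw [h1, h2] at heq
    have h3 : ((H.connectedComponentMk v, ψ (H.connectedComponentMk v) ((⟨v, rfl⟩, k), i)) :
        H.ConnectedComponent × ℤ) =
        (H.connectedComponentMk v', ψ (H.connectedComponentMk v') ((⟨v', rfl⟩, k'), i')) :=
      hab.1 heq
    have h4 : H.connectedComponentMk v' = H.connectedComponentMk v := (congrArg Prod.fst h3).symm
    have h5 := hφ (H.connectedComponentMk v) v' h4 k' i'
    rw [← h2, h5] at heq
    have h6 : ψ (H.connectedComponentMk v) ((⟨v, rfl⟩, k), i) =
        ψ (H.connectedComponentMk v) ((⟨v', h4⟩, k'), i') :=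
      mul_left_cancel₀ (hb (H.connectedComponentMk v)) (by linarith)
    have h7 := (hψ' (H.connectedComponentMk v)).1.1 h6
    have h8 : v = v' := congrArg (fun y => (y.1.1 : V)) h7
    have h9 : k = k' := congrArg (fun y => y.1.2) h7
    have h10 : i = i' := congrArg Prod.snd h7
    rw [h8, h9, h10]
  · intro x
    obtain ⟨⟨c, k⟩, hk⟩ := hab.2 x
    obtain ⟨⟨⟨⟨v, hv⟩, l⟩, i⟩, hi⟩ := (hψ' c).1.2 k
    refine ⟨((v, l), i), ?_⟩
    rw [hφ c v hv l i, hi]
    exact hk
  · intro w k i
    set c := H.connectedComponentMk w with hcdef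
    have hw : w ∈ c.supp := rfl
    have h1 := (hψ' c).2 ⟨w, hw⟩ k i
    have hmem : ∀ z ∈ H.neighborFinset w, z ∈ c.supp := by
      intro z hz
      rw [mem_neighborFinset] at hz
      exact (ConnectedComponent.connectedComponentMk_eq_of_adj hz).symm
    have hmap : ((H.induce c.supp).neighborFinset ⟨w, hw⟩).map (Function.Embedding.subtype _) =
        H.neighborFinset w := by
      ext z
      rw [mem_map, mem_neighborFinset]
      constructor
      · rintro ⟨y, hy, rfl⟩
        rw [mem_neighborFinset] at hy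
        exact hy
      · intro hz
        refine ⟨⟨z, hmem z (by rw [mem_neighborFinset]; exact hz)⟩, ?_, rfl⟩
        rw [mem_neighborFinset]
        exact hz
    have hdeg : (H.induce c.supp).degree ⟨w, hw⟩ = H.degree w := by
      rw [← card_neighborFinset_eq_degree, ← card_neighborFinset_eq_degree, ← hmap, card_map]
    have hsum : ∑ z ∈ H.neighborFinset w, φ ((z, k), i) =
        ∑ z ∈ (H.induce c.supp).neighborFinset ⟨w, hw⟩, (a c + b c * ψ c ((z, k), i)) := by
      rw [← hmap, sum_map]
      exact sum_congr rfl fun z _ => hφ c z.1 z.2 k i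
    have hsum2 : ∑ z ∈ P.neighborFinset k, φ ((w, z), i) =
        ∑ z ∈ P.neighborFinset k, (a c + b c * ψ c ((⟨w, hw⟩, z), i)) :=
      sum_congr rfl fun z _ => hφ c w hw z i
    rw [hsum, hsum2, sum_add_distrib, sum_add_distrib, sum_const, sum_const,
      card_neighborFinset_eq_degree, card_neighborFinset_eq_degree, hdeg, ← mul_sum, ← mul_sum,
      hφ c w hw, hφ c w hw, hφ c w hw, nsmul_eq_mul, nsmul_eq_mul]
    rw [hdeg] at h1
    linear_combination b c * h1

end Pool.Agent.W5h88.HL
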