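import Mathlib

set_option autoImplicit false

/-!
# Two scalar recursions
-/

namespace Pool.Agent.W5h88.HL

/-- the coefficients of the line, without signs -/
def sc : ℕ → ℕ → ℤ
  | 0 => fun _ => 0
  | 1 => fun k => if k = 0 then 1 else 0
  | (n + 2) => fun k => 4 * sc (n + 1) k + sc (n + 1) (k + 1) +
      (if k = 0 then sc (n + 1) 1 else sc (n + 1) (k - 1)) - sc n k

theorem sc_zero (k : ℕ) : sc 0 k = 0 := rfl

theorem sc_one (k : ℕ) : sc 1 k = if k = 0 then 1 else 0 := rfl

theorem sc_rec (n k : ℕ) : sc (n + 2) k = 4 * sc (n + 1) k + sc (n + 1) (k + 1) +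
      (if k = 0 then sc (n + 1) 1 else sc (n + 1) (k - 1)) - sc n k := rfl

theorem sc_mono_aux (n : ℕ) : ∀ k, 0 ≤ sc n k ∧ sc n k ≤ sc (n + 1) k := by
  induction n with
  | zero =>
    intro k
    rw [sc_zero, sc_one]
    split_ifs <;> simp
  | succ n ih =>
    intro k
    have h1 := ih k
    have h2 := ih (k + 1)
    have h3 := ih 1
    have h4 := ih (k - 1)
    refine ⟨h1.1.trans h1.2, ?_⟩
    rw [sc_rec]
    split_ifs <;> linarith

theorem sc_nonneg (n k : ℕ) : 0 ≤ sc n k := (sc_mono_aux n k).1

theorem sc_mono {n m : ℕ} (h : n ≤ m) (k : ℕ) : sc n k ≤ sc m k := by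
  induction m, h using Nat.le_induction with
  | base => exact le_rfl
  | succ m _ ih => exact ih.trans (sc_mono_aux m k).2

/-- the differences in the second variable -/
theorem sc_diff (n : ℕ) : ∀ k, 0 ≤ sc n k - sc n (k + 1) ∧
    sc n k - sc n (k + 1) ≤ sc (n + 1) k - sc (n + 1) (k + 1) := by
  induction n with
  | zero =>
    intro k
    rw [sc_zero, sc_zero, sc_one, sc_one]
    split_ifs <;> simp_all
  | succ n ih =>
    intro k
    have h1 := ih k
    refine ⟨h1.1.trans h1.2, ?_⟩
    have h2 := ih (k + 1)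
    rw [sc_rec, sc_rec]
    rcases Nat.eq_zero_or_pos k with rfl | hk
    · simp only [if_true, if_neg (Nat.succ_ne_zero 0), zero_add, Nat.add_sub_cancel] at *
      linarith
    · obtain ⟨l, rfl⟩ : ∃ l, k = l + 1 := ⟨k - 1, by omega⟩
      have h3 := ih l
      rw [if_neg (Nat.succ_ne_zero l), if_neg (Nat.succ_ne_zero (l + 1))]
      simp only [Nat.add_sub_cancel]
      linarith

theorem sc_anti {n k l : ℕ} (h : k ≤ l) : sc n l ≤ sc n k := by
  induction l, h using Nat.le_induction with
  | base => exact le_rfl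
  | succ l _ ih =>
    have := (sc_diff n l).1
    linarith

theorem sc_strict (n : ℕ) : ∀ k, k < n → 0 < sc n k - sc n (k + 1) := by
  induction n with
  | zero => intro k hk; omega
  | succ n ih =>
    intro k hk
    rcases Nat.lt_or_ge k n with h | h
    · exact (ih k h).trans_le (sc_diff n k).2
    · have hkn : k = n := by omega
      subst hkn
      rcases Nat.eq_zero_or_pos k with rfl | hk0
      · simp [sc_one]
      · obtain ⟨l, rfl⟩ : ∃ l, k = l + 1 := ⟨k - 1, by omega⟩
        have h1 := ih l (by omega)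
        have h2 := sc_diff l (l + 1)
        have h3 := sc_diff (l + 1) (l + 2)
        have h4 := sc_diff (l + 1) (l + 1)
        rw [sc_rec, sc_rec, if_neg (Nat.succ_ne_zero l), if_neg (Nat.succ_ne_zero (l + 1))]
        simp only [Nat.add_sub_cancel]
        linarith

theorem sc_pos {n k : ℕ} (h : k < n) : 0 < sc n k := by
  have h1 := sc_strict n k h
  have h2 := sc_nonneg n (k + 1)
  linarith

theorem sc_lt {n k : ℕ} (h : k ≤ n) : sc n k < sc (n + 1) k := by
  rcases n with _ | n
  · have : k = 0 := by omega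
    subst this
    simp [sc_zero, sc_one]
  · rw [sc_rec]
    have h1 := sc_mono_aux n k
    have h2 := sc_nonneg (n + 1) (k + 1)
    have h3 := sc_nonneg (n + 1) k
    rcases Nat.eq_zero_or_pos k with rfl | hk
    · have h4 := sc_pos (n := n + 1) (k := 0) (by omega)
      have h5 := sc_nonneg (n + 1) 1
      rw [if_pos rfl]
      linarith
    · have h4 := sc_pos (n := n + 1) (k := k - 1) (by omega)
      rw [if_neg (by omega)]
      linarith

/-- the recursion, in terms of integers -/
theorem sc_rec_int (n : ℕ) (β : ℤ) : sc (n + 2) β.natAbs = 4 * sc (n + 1) β.natAbs +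
    sc (n + 1) (β + 1).natAbs + sc (n + 1) (β - 1).natAbs - sc n β.natAbs := by
  rw [sc_rec]
  rcases lt_trichotomy β 0 with h | h | h
  · have e1 : (β + 1).natAbs = β.natAbs - 1 := by omega
    have e2 : (β - 1).natAbs = β.natAbs + 1 := by omega
    rw [e1, e2, if_neg (by omega)]
    ring
  · subst h
    simp
  · have e1 : (β + 1).natAbs = β.natAbs + 1 := by omega
    have e2 : (β - 1).natAbs = β.natAbs - 1 := by omega
    rw [e1, e2, if_neg (by omega)]

/-- the second recursion: monotonicity -/
theorem rec_mono {e : ℕ → ℤ → ℕ → ℤ} {m : ℕ → ℤ} (hm : ∀ j, 0 ≤ m j)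
    (h0 : ∀ β j, e 0 β j = 0) (h1 : ∀ β j, e 1 β j = if β = 0 then m j else 0)
    (hrec : ∀ n β j, e (n + 2) β j = e (n + 1) β (j + 1) + 4 * e (n + 1) β j + e (n + 1) (β + 1) j +
      e (n + 1) (β - 1) j - e n β j) (n : ℕ) :
    ∀ β j, 0 ≤ e n β j ∧ e n β j ≤ e (n + 1) β j := by
  induction n with
  | zero =>
    intro β j
    rw [h0, h1]
    have := hm j
    split_ifs <;> simp [this]
  | succ n ih =>
    intro β j
    have hn : ∀ β j, 0 ≤ e (n + 1) β j := fun β j => (ih β j).1.trans (ih β j).2
    refine ⟨hn β j, ?_⟩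
    rw [hrec]
    have a1 := ih β j
    have a2 := hn β (j + 1)
    have a3 := hn (β + 1) j
    have a4 := hn (β - 1) j
    linarith

/-- the second recursion: positivity -/
theorem rec_pos {e : ℕ → ℤ → ℕ → ℤ} {m : ℕ → ℤ} (hm : ∀ j, 0 ≤ m j) (hm0 : 0 < m 0)
    (h0 : ∀ β j, e 0 β j = 0) (h1 : ∀ β j, e 1 β j = if β = 0 then m j else 0)
    (hrec : ∀ n β j, e (n + 2) β j = e (n + 1) β (j + 1) + 4 * e (n + 1) β j + e (n + 1) (β + 1) j +
      e (n + 1) (β - 1) j - e n β j) (n : ℕ) : ∀ β : ℤ, β.natAbs < n → 0 < e n β 0 := by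
  have hmono := rec_mono hm h0 h1 hrec
  induction n with
  | zero => intro β h; omega
  | succ n ih =>
    intro β hβ
    rcases Nat.lt_or_ge β.natAbs n with h | h
    · exact (ih β h).trans_le (hmono n β 0).2
    · rcases n with _ | n
      · have : β = 0 := by omega
        subst this
        rw [h1, if_pos rfl]
        exact hm0
      · have a1 := hmono n β 0
        have a2 := (hmono (n + 1) β 1).1
        have a3 := (hmono (n + 1) (β + 1) 0).1
        have a4 := (hmono (n + 1) (β - 1) 0).1
        rw [hrec]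
        rcases lt_or_gt_of_ne (show β ≠ 0 by omega) with hb | hb
        · have a5 := ih (β + 1) (by omega)
          linarith
        · have a5 := ih (β - 1) (by omega)
          linarith

end Pool.Agent.W5h88.HL
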