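import Pool.Agent.W5h88.HL.GenMain
import Pool.Agent.W5h88.HL.Scalar
import Pool.Agent.W5h88.HL.Lap
import Pool.Agent.W5h88.HL.Labeling

set_option autoImplicit false

/-!
# The growth condition for all products `H × ℤ`
-/

namespace Pool.Agent.W5h88.HL

open Finset SimpleGraph

noncomputable instance : lineZ.LocallyFinite := fun i =>
  ((Finset.finite_toSet ({i - 1, i + 1} : Finset ℤ)).subset (lineZ_nbr i).le).fintype

variable {V : Type*} (H : SimpleGraph V) [H.LocallyFinite]

theorem prod_sum (f : V × ℤ → ℤ) (h : V) (a : ℤ) :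
    ∑ z ∈ (H □ lineZ).neighborFinset (h, a), f z =
      f (h, a - 1) + f (h, a + 1) + ∑ y ∈ H.neighborFinset h, f (y, a) := by
  obtain ⟨S, hS, hc, hsum⟩ := prod_nbr H h a
  have h1 : (H □ lineZ).neighborFinset (h, a) = S := by
    apply Finset.coe_injective
    rw [coe_neighborFinset, hS]
  rw [h1]
  have h2 := hsum fun z => (f z : ℚ)
  exact_mod_cast h2

theorem prod_deg (h : V) (a : ℤ) : (H □ lineZ).degree (h, a) = H.degree h + 2 := by
  obtain ⟨S, hS, hc, hsum⟩ := prod_nbr H h a
  have h1 : (H □ lineZ).neighborFinset (h, a) = S := by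
    apply Finset.coe_injective
    rw [coe_neighborFinset, hS]
  rw [← card_neighborFinset_eq_degree, h1, hc]

/-- signs -/
def sg (β : ℤ) : ℤ := if Even β then 1 else -1

theorem sg_zero : sg 0 = 1 := by simp [sg]

theorem sg_succ (β : ℤ) : sg (β + 1) = - sg β := by
  unfold sg
  by_cases h : Even β
  · rw [if_pos h, if_neg (by rw [Int.even_add_one]; simpa using h)]
  · rw [if_neg h, if_pos (by rw [Int.even_add_one]; exact h)]
    norm_num

theorem sg_pred (β : ℤ) : sg (β - 1) = - sg β := by
  have h := sg_succ (β - 1)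
  rw [sub_add_cancel] at h
  linarith

theorem sg_abs (β : ℤ) : |sg β| = 1 := by
  unfold sg
  split_ifs <;> simp

/-- the test function of the slice `b` of the layer `1` -/
def tb (b : ℤ) (x : (V × ℤ) × Bool) : ℤ := if x.2 = true ∧ x.1.2 = b then 1 else 0

theorem ev_tb (hG : (H □ lineZ).Connected) (b : ℤ) (n : ℕ) :
    (∀ (h : V) (a : ℤ), ev (tb b) (K (H □ lineZ) hG (h, a) n) =
      sg (b - a) * sc n (b - a).natAbs) ∧
    ∀ (h : V) (a : ℤ), ev (tb b) (K (H □ lineZ) hG (h, a) (n + 1)) =
      sg (b - a) * sc (n + 1) (b - a).natAbs := by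
  induction n with
  | zero =>
    refine ⟨fun h a => ?_, fun h a => ?_⟩
    · rw [Nat.cast_zero, K_zero_false, ev_single, sc_zero]
      simp [tb]
    · rw [Nat.cast_zero, zero_add, K_one_true, ev_single, sc_one]
      by_cases hab : a = b
      · subst hab
        simp [tb, sg_zero]
      · have h1 : ¬ (b - a).natAbs = 0 := by omega
        rw [if_neg h1]
        simp [tb, hab]
  | succ n ih =>
    refine ⟨fun h a => by push_cast; exact ih.2 h a, fun h a => ?_⟩
    have h1 := ev_harm (H □ lineZ) hG (tb b) (h, a) (n + 1)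
    rw [prod_sum H (fun z => ev (tb b) (K (H □ lineZ) hG z (n + 1))), prod_deg] at h1
    have e1 : ((n : ℤ) + 1 - 1) = n := by ring
    rw [e1, ih.1, ih.2, ih.2, ih.2] at h1
    have h2 : ∑ y ∈ H.neighborFinset h, ev (tb b) (K (H □ lineZ) hG (y, a) (n + 1)) =
        (H.degree h : ℤ) * (sg (b - a) * sc (n + 1) (b - a).natAbs) := by
      rw [sum_congr rfl fun y _ => ih.2 y a, sum_const, card_neighborFinset_eq_degree,
        nsmul_eq_mul]
    rw [h2] at h1
    have e2 : b - (a - 1) = b - a + 1 := by ring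
    have e3 : b - (a + 1) = b - a - 1 := by ring
    rw [e2, e3, sg_succ, sg_pred] at h1
    have h3 := sc_rec_int n (b - a)
    push_cast at h1 ⊢
    have e4 : n + 1 + 1 = n + 2 := rfl
    rw [e4, h3]
    linear_combination -h1

theorem ev_tb_neg (hG : (H □ lineZ).Connected) (b : ℤ) (n : ℕ) (w : V × ℤ) :
    ev (tb b) (K (H □ lineZ) hG w (-(n : ℤ))) = - ev (tb b) (K (H □ lineZ) hG w n) := by
  have h1 : ev (tb b) (K (H □ lineZ) hG w (-(n : ℤ)) + K (H □ lineZ) hG w n) = 0 := by
    have h2 : ev (tb b) (K (H □ lineZ) hG w (-(n : ℤ)) + K (H □ lineZ) hG w n) =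
        ev (fun _ => 0) (K (H □ lineZ) hG w (-(n : ℤ)) + K (H □ lineZ) hG w n) := by
      refine ev_congr fun x hx => ?_
      obtain ⟨u, c⟩ := x
      cases c
      · simp [tb]
      · exfalso
        rw [Finsupp.mem_support_iff, Finsupp.add_apply, K_true, K_true, cc_neg] at hx
        exact hx (by ring)
    rw [h2]
    simp [ev, Finsupp.sum]
  rw [ev_add] at h1
  linarith

theorem ev_tb_abs (hG : (H □ lineZ).Connected) (b : ℤ) (h : V) (a i : ℤ) :
    |ev (tb b) (K (H □ lineZ) hG (h, a) i)| = sc i.natAbs (b - a).natAbs := by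
  rcases Int.eq_nat_or_neg i with ⟨n, rfl | rfl⟩
  · rw [(ev_tb H hG b n).1, abs_mul, sg_abs, one_mul, abs_of_nonneg (sc_nonneg _ _),
      Int.natAbs_natCast]
  · rw [ev_tb_neg, abs_neg, (ev_tb H hG b n).1, abs_mul, sg_abs, one_mul,
      abs_of_nonneg (sc_nonneg _ _), Int.natAbs_neg, Int.natAbs_natCast]

omit H [H.LocallyFinite] in
theorem pigeon (B : Finset ℤ) {N : ℕ} (hB : B.card ≤ N) (f : ℕ → ℤ) (hf : Function.Injective f) :
    ∃ k ≤ N, f k ∉ B := by
  have h1 : B.card < ((range (N + 1)).image f).card := by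
    rw [card_image_of_injective _ hf, card_range]
    omega
  obtain ⟨b, hb, hb'⟩ := exists_mem_notMem_of_card_lt_card h1
  rw [mem_image] at hb
  obtain ⟨k, hk, rfl⟩ := hb
  exact ⟨k, by rw [mem_range] at hk; omega, hb'⟩

/-- the differences of two target columns -/
noncomputable def Tf (h h' : V) (b : ℤ) (n : ℕ) (α : ℤ) (x : V) : ℤ :=
  cf (H □ lineZ) n (x, α) (h, b) - cf (H □ lineZ) n (x, α) (h', b)

theorem Tf_rec (h h' : V) (b : ℤ) (n : ℕ) (α : ℤ) (x : V) : Tf H h h' b (n + 2) α x =
    ((H.degree x : ℤ) * Tf H h h' b (n + 1) α x - ∑ y ∈ H.neighborFinset x, Tf H h h' b (n + 1) α y)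
      + 4 * Tf H h h' b (n + 1) α x - Tf H h h' b (n + 1) (α - 1) x
      - Tf H h h' b (n + 1) (α + 1) x - Tf H h h' b n α x := by
  unfold Tf
  rw [cf_add_two, cf_add_two, prod_sum H (fun z => cf (H □ lineZ) (n + 1) z (h, b)),
    prod_sum H (fun z => cf (H □ lineZ) (n + 1) z (h', b)), prod_deg, sum_sub_distrib]
  push_cast
  ring

theorem pr_Tf_rec (h h' : V) (b : ℤ) (n : ℕ) (α : ℤ) (f : V →₀ ℤ) :
    pr (Tf H h h' b (n + 2) α) f = pr (Tf H h h' b (n + 1) α) (lapF H f) +
      4 * pr (Tf H h h' b (n + 1) α) f - pr (Tf H h h' b (n + 1) (α - 1)) f -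
      pr (Tf H h h' b (n + 1) (α + 1)) f - pr (Tf H h h' b n α) f := by
  rw [pr_lap]
  unfold pr Finsupp.sum
  rw [mul_sum, ← sum_add_distrib, ← sum_sub_distrib, ← sum_sub_distrib, ← sum_sub_distrib]
  refine sum_congr rfl fun x _ => ?_
  beta_reduce
  rw [Tf_rec]
  ring

theorem Tf_pos {h h' : V} (hne : h ≠ h') (b : ℤ) (n : ℕ) (β : ℤ) (hβ : β.natAbs < n) :
    Tf H h h' b n (b - β) h - Tf H h h' b n (b - β) h' ≠ 0 := by
  classical
  set e : V →₀ ℤ := Finsupp.single h 1 - Finsupp.single h' 1 with he
  have key := rec_pos (e := fun n β j => sg β * pr (Tf H h h' b n (b - β)) ((lapF H)^[j] e))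
    (m := fun j => pr e ((lapF H)^[j] e)) (moments_nonneg H e) ?_ ?_ ?_ ?_ n β hβ
  · simp only [Function.iterate_zero, id_eq] at key
    rw [he, pr_sub, pr_single, pr_single, one_mul, one_mul] at key
    intro h0
    rw [h0, mul_zero] at key
    exact lt_irrefl _ key
  · simp only [Function.iterate_zero, id_eq]
    rw [he, pr_sub, pr_single, pr_single]
    simp [Finsupp.sub_apply, Finsupp.single_apply, hne, hne.symm]
  · intro β j
    have h1 : Tf H h h' b 0 (b - β) = fun _ => 0 := by
      funext x
      simp [Tf, cf_zero]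
    rw [h1]
    simp [pr, Finsupp.sum]
  · intro β j
    by_cases hb : β = 0
    · subst hb
      rw [if_pos rfl, sg_zero, one_mul, sub_zero]
      congr 1
      funext x
      rw [he, Finsupp.sub_apply, Finsupp.single_apply, Finsupp.single_apply]
      unfold Tf cf
      simp [Prod.ext_iff]
    · rw [if_neg hb]
      have h1 : Tf H h h' b 1 (b - β) = fun _ => 0 := by
        funext x
        unfold Tf
        rw [cf_one_ne, cf_one_ne, sub_zero]
        · intro h2
          have h3 : b = b - β := congrArg Prod.snd h2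
          omega
        · intro h2
          have h3 : b = b - β := congrArg Prod.snd h2
          omega
      rw [h1]
      simp [pr, Finsupp.sum]
  · intro n β j
    rw [pr_Tf_rec, ← Function.iterate_succ_apply' (lapF H) j e, sg_succ, sg_pred]
    have e1 : b - (β + 1) = b - β - 1 := by ring
    have e2 : b - (β - 1) = b - β + 1 := by ring
    rw [e1, e2]
    ring

/-- **The growth condition holds for all products.** -/
theorem grows_prod (hG : (H □ lineZ).Connected) : Grows (H □ lineZ) hG := by
  classical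
  have key : ∀ (F : Finset ((V × ℤ) × Bool)) (h h' : V) (a a' i i' : ℤ),
      ((h, a), i) ≠ ((h', a'), i') →
      (∀ x, (K (H □ lineZ) hG (h, a) i - K (H □ lineZ) hG (h', a') i') x ≠ 0 → x ∈ F) →
      i'.natAbs ≤ i.natAbs → i.natAbs ≤ F.card := by
    intro F h h' a a' i i' hne hmem hle
    by_contra hc
    obtain ⟨N, hN⟩ : ∃ N, i.natAbs = N + 1 := ⟨i.natAbs - 1, by omega⟩
    set B : Finset ℤ := F.image fun x => x.1.2 with hB
    have hBcard : B.card ≤ N := card_image_le.trans (by omega)
    have hB0 : ∀ b, b ∉ B → ∀ x : V,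
        (K (H □ lineZ) hG (h, a) i - K (H □ lineZ) hG (h', a') i') ((x, b), true) = 0 := by
      intro b hb x
      by_contra h1
      exact hb (mem_image.2 ⟨_, hmem _ h1, rfl⟩)
    have hB1 : ∀ b, b ∉ B → ev (tb b) (K (H □ lineZ) hG (h, a) i) =
        ev (tb b) (K (H □ lineZ) hG (h', a') i') := by
      intro b hb
      have h1 : ev (tb b) (K (H □ lineZ) hG (h, a) i - K (H □ lineZ) hG (h', a') i') = 0 := by
        have h2 : ev (tb b) (K (H □ lineZ) hG (h, a) i - K (H □ lineZ) hG (h', a') i') =
            ev (fun _ => 0) (K (H □ lineZ) hG (h, a) i - K (H □ lineZ) hG (h', a') i') := by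
          refine ev_congr fun x hx => ?_
          have h3 := hmem x (Finsupp.mem_support_iff.1 hx)
          have h4 : x.1.2 ≠ b := by
            rintro rfl
            exact hb (mem_image.2 ⟨_, h3, rfl⟩)
          simp [tb, h4]
        rw [h2]
        simp [ev, Finsupp.sum]
      rw [ev_sub] at h1
      linarith
    by_cases hcase : a = a' ∧ i = i'
    · obtain ⟨rfl, rfl⟩ := hcase
      have hh : h ≠ h' := fun h1 => hne (by rw [h1])
      obtain ⟨k, hk, hkB⟩ := pigeon B hBcard (fun k => a + k) fun x y hxy => by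
        simp only at hxy
        omega
      have h1 := hB0 _ hkB h
      have h2 := hB0 _ hkB h'
      rw [Finsupp.sub_apply, K_true, K_true] at h1 h2
      have h3 := Tf_pos H hh (a + k) i.natAbs (k : ℤ) (by rw [Int.natAbs_natCast]; omega)
      apply h3
      unfold Tf
      have e1 : a + (k : ℤ) - k = a := by ring
      rw [e1]
      rcases Int.eq_nat_or_neg i with ⟨n, rfl | rfl⟩
      · rw [cc_nat, cc_nat] at h1 h2
        rw [Int.natAbs_natCast]
        linarith
      · rw [cc_neg, cc_neg, cc_nat, cc_nat] at h1 h2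
        rw [Int.natAbs_neg, Int.natAbs_natCast]
        linarith
    · -- a suitable slice
      obtain ⟨b, hb, hk, hk'⟩ : ∃ b, b ∉ B ∧ (b - a).natAbs ≤ N ∧
          ((b - a).natAbs < (b - a').natAbs ∨ a = a') := by
        rcases le_total a a' with hle' | hle'
        · obtain ⟨k, hk, hkB⟩ := pigeon B hBcard (fun k => a - k) fun x y hxy => by
            simp only at hxy
            omega
          refine ⟨_, hkB, by omega, ?_⟩
          rcases eq_or_lt_of_le hle' with h1 | h1
          · exact Or.inr h1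
          · left
            omega
        · obtain ⟨k, hk, hkB⟩ := pigeon B hBcard (fun k => a + k) fun x y hxy => by
            simp only at hxy
            omega
          refine ⟨_, hkB, by omega, ?_⟩
          rcases eq_or_lt_of_le hle' with h1 | h1
          · exact Or.inr h1.symm
          · left
            omega
      have h1 := hB1 b hb
      have h2 := congrArg abs h1
      rw [ev_tb_abs, ev_tb_abs, hN] at h2
      rcases hk' with h3 | h3
      · have h4 : sc i'.natAbs (b - a').natAbs ≤ sc (N + 1) (b - a').natAbs := sc_mono (by omega) _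
        have h5 : sc (N + 1) (b - a').natAbs ≤ sc (N + 1) ((b - a).natAbs + 1) := sc_anti h3
        have h6 := sc_strict (N + 1) (b - a).natAbs (by omega)
        linarith
      · subst h3
        rcases eq_or_lt_of_le hle with h4 | h4
        · -- `i' = - i`
          have h5 : i' = -i := by
            have : i ≠ i' := fun h => hcase ⟨rfl, h⟩
            omega
          have h6 : ev (tb b) (K (H □ lineZ) hG (h', a) (-i)) =
              - ev (tb b) (K (H □ lineZ) hG (h', a) i) := by
            rcases Int.eq_nat_or_neg i with ⟨n, rfl | rfl⟩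
            · exact ev_tb_neg H hG b n _
            · rw [neg_neg, ev_tb_neg, neg_neg]
          have h7 : ev (tb b) (K (H □ lineZ) hG (h', a) i) =
              ev (tb b) (K (H □ lineZ) hG (h, a) i) := by
            rcases Int.eq_nat_or_neg i with ⟨n, rfl | rfl⟩
            · rw [(ev_tb H hG b n).1, (ev_tb H hG b n).1]
            · rw [ev_tb_neg, ev_tb_neg, (ev_tb H hG b n).1, (ev_tb H hG b n).1]
          rw [h5, h6, h7] at h1
          have h8 : ev (tb b) (K (H □ lineZ) hG (h, a) i) = 0 := by linarith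
          have h9 := ev_tb_abs H hG b h a i
          rw [h8, abs_zero, hN] at h9
          have h10 := sc_pos (n := N + 1) (k := (b - a).natAbs) (by omega)
          linarith
        · have h5 : sc i'.natAbs (b - a).natAbs ≤ sc N (b - a).natAbs := sc_mono (by omega) _
          have h6 := sc_lt hk
          linarith
  intro n
  refine ⟨n, ?_⟩
  rintro F hF ⟨h, a⟩ ⟨h', a'⟩ i i' hne hsup
  rcases le_total i'.natAbs i.natAbs with hle | hle
  · have h1 := key F h h' a a' i i' hne (fun x hx => hsup (Finsupp.mem_support_iff.2 hx)) hle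
    exact ⟨by omega, by omega⟩
  · have h1 := key F h' h a' a i' i hne.symm (fun x hx => hsup (Finsupp.mem_support_iff.2 (by
      intro h0
      apply hx
      rw [Finsupp.sub_apply] at h0 ⊢
      linarith))) hle
    exact ⟨by omega, by omega⟩

end Pool.Agent.W5h88.HL
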