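import Pool.Agent.W5h88.HL.Prod2

set_option autoImplicit false

/-!
# Harmonic labelings of `H × P × ℤ`
-/

namespace Pool.Agent.W5h88.HL

open Finset SimpleGraph

theorem labeling_iff3 {V W : Type*} (H : SimpleGraph V) [H.LocallyFinite] (P : SimpleGraph W)
    [P.LocallyFinite] (φ : (V × W) × ℤ → ℤ) : IsHarmonicLabeling ((H □ P) □ lineZ) φ ↔
      Function.Bijective φ ∧ ∀ (v : V) (a : W) (i : ℤ),
        ((H.degree v : ℤ) + P.degree a + 2) * φ ((v, a), i) =
          φ ((v, a), i - 1) + φ ((v, a), i + 1) +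
          ∑ b ∈ P.neighborFinset a, φ ((v, b), i) + ∑ z ∈ H.neighborFinset v, φ ((z, a), i) := by
  rw [labeling_iff]
  refine and_congr_right fun _ => ?_
  constructor
  · intro h v a i
    have h1 := h (v, a) i
    rw [prod2_sum H P (fun z => φ (z, i)), prod2_deg] at h1
    push_cast at h1
    linarith
  · rintro h ⟨v, a⟩ i
    have h1 := h v a i
    rw [prod2_sum H P (fun z => φ (z, i)), prod2_deg]
    push_cast
    linarith

/-- Spread graphs grow. -/
theorem spread_grows {W : Type*} (P : SimpleGraph W) [P.LocallyFinite] (hP : P.Connected)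
    (hS : Spread P) [Nontrivial W] : Grows P hP := height_bound P hP hS

theorem spread_infinite {W : Type*} (P : SimpleGraph W) (hS : Spread P) [Nontrivial W] :
    Infinite W := by
  obtain ⟨w, w', hw⟩ := exists_pair_ne W
  choose f hf using fun r => hS.1 w w' hw r
  exact Infinite.of_injective f fun x y hxy => by rw [← (hf x).1, ← (hf y).1, hxy]

/-- the connected case -/
theorem labeling_prod3 {V W : Type*} [Countable V] [Countable W] (H : SimpleGraph V)
    [H.LocallyFinite] (P : SimpleGraph W) [P.LocallyFinite] [Nontrivial W]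
    (hH : H.Connected) (hP : P.Connected) (hS : Spread P) (hB : P.IsBipartite) :
    ∃ φ : (V × W) × ℤ → ℤ, IsHarmonicLabeling ((H □ P) □ lineZ) φ := by
  have hG : (H □ P).Connected := hH.boxProd hP
  have hne : Nonempty V := hH.nonempty
  have hW : Infinite W := spread_infinite P hS
  have hinf : Infinite (V × W) := inferInstance
  obtain ⟨C⟩ := hB
  have hε : ∀ a b, P.Adj a b → (if C b = 0 then (1 : ℤ) else -1) = - (if C a = 0 then 1 else -1) := by
    intro a b hab
    have h1 : C a ≠ C b := C.valid hab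
    have h2 : ∀ x y : Fin 2, x ≠ y →
        (if y = 0 then (1 : ℤ) else -1) = - (if x = 0 then 1 else -1) := by decide
    exact h2 _ _ h1
  have hε1 : ∀ a, (if C a = 0 then (1 : ℤ) else -1) * (if C a = 0 then (1 : ℤ) else -1) = 1 := by
    intro a
    split_ifs <;> norm_num
  have hgr := grows_prod2 H P hG hP (spread_grows P hP hS) (ε := fun a => if C a = 0 then 1 else -1)
    hε1 hε
  obtain ⟨φ, h1, h2⟩ := main_gen (H □ P) hG hgr
  exact ⟨φ, (labeling_iff _ φ).2 ⟨h1, h2⟩⟩

/-- **All products `H × P × ℤ`.** -/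
theorem labeling_all3 {V W : Type*} [Countable V] [Nonempty V] [Countable W] [Nontrivial W]
    (H : SimpleGraph V) [H.LocallyFinite] (P : SimpleGraph W) [P.LocallyFinite]
    (hP : P.Connected) (hS : Spread P) (hB : P.IsBipartite) :
    ∃ φ : (V × W) × ℤ → ℤ, IsHarmonicLabeling ((H □ P) □ lineZ) φ := by
  classical
  have hlf : ∀ c : H.ConnectedComponent, ∀ x : c.supp, ((H.induce c.supp).neighborSet x).Finite := by
    intro c x
    have h1 : (H.neighborSet x.1).Finite := (H.neighborSet x.1).toFinite
    refine (h1.preimage (f := Subtype.val) Subtype.val_injective.injOn).subset fun y hy => ?_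
    exact hy
  let inst : ∀ c : H.ConnectedComponent, (H.induce c.supp).LocallyFinite := fun c x =>
    (hlf c x).fintype
  have h : ∀ c : H.ConnectedComponent, ∃ φ : (c.supp × W) × ℤ → ℤ,
      IsHarmonicLabeling ((H.induce c.supp □ P) □ lineZ) φ := fun c =>
    labeling_prod3 (H.induce c.supp) P c.connected_toSimpleGraph hP hS hB
  choose ψ hψ using h
  have hc : Countable H.ConnectedComponent := by
    unfold SimpleGraph.ConnectedComponent
    infer_instance
  have hne : Nonempty H.ConnectedComponent := ‹Nonempty V›.map H.connectedComponentMk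
  obtain ⟨a, b, hb, hab⟩ := ap_countable H.ConnectedComponent
  have hψ' := fun c => (labeling_iff3 (H.induce c.supp) P (ψ c)).1 (hψ c)
  let φ : (V × W) × ℤ → ℤ := fun x => a (H.connectedComponentMk x.1.1) +
    b (H.connectedComponentMk x.1.1) * ψ (H.connectedComponentMk x.1.1) ((⟨x.1.1, rfl⟩, x.1.2), x.2)
  have hφ : ∀ (c : H.ConnectedComponent) (v : V) (hv : v ∈ c.supp) (k : W) (i : ℤ),
      φ ((v, k), i) = a c + b c * ψ c ((⟨v, hv⟩, k), i) := by
    intro c v hv k i
    have h1 : H.connectedComponentMk v = c := hv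
    subst h1
    rfl
  refine ⟨φ, (labeling_iff3 H P φ).2 ⟨⟨?_, ?_⟩, ?_⟩⟩
  · rintro ⟨⟨v, k⟩, i⟩ ⟨⟨v', k'⟩, i'⟩ heq
    have h1 := hφ (H.connectedComponentMk v) v rfl k i
    have h2 := hφ (H.connectedComponentMk v') v' rfl k' i'
    rw [h1, h2] at heq
    have h3 : ((H.connectedComponentMk v, ψ (H.connectedComponentMk v) ((⟨v, rfl⟩, k), i)) :
        H.ConnectedComponent × ℤ) =
        (H.connectedComponentMk v', ψ (H.connectedComponentMk v') ((⟨v', rfl⟩, k'), i')) :=
      hab.1 heq
    have h4 : H.connectedComponentMk v' = H.connectedComponentMk v := (congrArg Prod.fst h3).symm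
    have h5 := hφ (H.connectedComponentMk v) v' h4 k' i'
    rw [← h2, h5] at heq
    have h6 : ψ (H.connectedComponentMk v) ((⟨v, rfl⟩, k), i) =
        ψ (H.connectedComponentMk v) ((⟨v', h4⟩, k'), i') :=
      mul_left_cancel₀ (hb (H.connectedComponentMk v)) (by linarith)
    have h7 := (hψ' (H.connectedComponentMk v)).1.1 h6
    have h8 : v = v' := congrArg (fun y => (y.1.1 : V)) h7
    have h9 : k = k' := congrArg (fun y => y.1.2) h7
    have h10 : i = i' := congrArg Prod.snd h7
    rw [h8, h9, h10]
  · intro x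
    obtain ⟨⟨c, k⟩, hk⟩ := hab.2 x
    obtain ⟨⟨⟨⟨v, hv⟩, l⟩, i⟩, hi⟩ := (hψ' c).1.2 k
    refine ⟨((v, l), i), ?_⟩
    rw [hφ c v hv l i, hi]
    exact hk
  · intro w k i
    set c := H.connectedComponentMk w with hcdef
    have hw : w ∈ c.supp := rfl
    have h1 := (hψ' c).2 ⟨w, hw⟩ k i
    have hmem : ∀ z ∈ H.neighborFinset w, z ∈ c.supp := by
      intro z hz
      rw [mem_neighborFinset] at hz
      exact (ConnectedComponent.connectedComponentMk_eq_of_adj hz).symm
    have hmap : ((H.induce c.supp).neighborFinset ⟨w, hw⟩).map (Function.Embedding.subtype _) =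
        H.neighborFinset w := by
      ext z
      rw [mem_map, mem_neighborFinset]
      constructor
      · rintro ⟨y, hy, rfl⟩
        rw [mem_neighborFinset] at hy
        exact hy
      · intro hz
        refine ⟨⟨z, hmem z (by rw [mem_neighborFinset]; exact hz)⟩, ?_, rfl⟩
        rw [mem_neighborFinset]
        exact hz
    have hdeg : (H.induce c.supp).degree ⟨w, hw⟩ = H.degree w := by
      rw [← card_neighborFinset_eq_degree, ← card_neighborFinset_eq_degree, ← hmap, card_map]
    have hsum : ∑ z ∈ H.neighborFinset w, φ ((z, k), i) =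
        ∑ z ∈ (H.induce c.supp).neighborFinset ⟨w, hw⟩, (a c + b c * ψ c ((z, k), i)) := by
      rw [← hmap, sum_map]
      exact sum_congr rfl fun z _ => hφ c z.1 z.2 k i
    have hsum2 : ∑ z ∈ P.neighborFinset k, φ ((w, z), i) =
        ∑ z ∈ P.neighborFinset k, (a c + b c * ψ c ((⟨w, hw⟩, z), i)) :=
      sum_congr rfl fun z _ => hφ c w hw z i
    rw [hsum, hsum2, sum_add_distrib, sum_add_distrib, sum_const, sum_const,
      card_neighborFinset_eq_degree, card_neighborFinset_eq_degree, hdeg, ← mul_sum, ← mul_sum,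
      hφ c w hw, hφ c w hw, hφ c w hw, nsmul_eq_mul, nsmul_eq_mul]
    rw [hdeg] at h1
    linear_combination b c * h1

/-- trees are bipartite -/
theorem tree_bipartite {W : Type*} (P : SimpleGraph W) (hT : P.IsTree) : P.IsBipartite := by
  classical
  obtain ⟨r⟩ := hT.connected.nonempty
  refine ⟨Coloring.mk (fun v => if Even (P.dist r v) then (0 : Fin 2) else 1) ?_⟩
  intro v w hvw h
  rcases hT.dist_eq_dist_add_one_of_adj r hvw with h1 | h1
  · rw [h1] at h
    by_cases h2 : Even (P.dist r w)
    · rw [if_pos h2, if_neg (by rw [Nat.even_add_one]; simpa using h2)] at h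
      exact absurd h (by decide)
    · rw [if_neg h2, if_pos (by rw [Nat.even_add_one]; exact h2)] at h
      exact absurd h (by decide)
  · rw [h1] at h
    by_cases h2 : Even (P.dist r v)
    · rw [if_pos h2, if_neg (by rw [Nat.even_add_one]; simpa using h2)] at h
      exact absurd h (by decide)
    · rw [if_neg h2, if_pos (by rw [Nat.even_add_one]; exact h2)] at h
      exact absurd h (by decide)

end Pool.Agent.W5h88.HL
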